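import Pool.Agent.OSR2.EB2

/-!
Version 2 of `caseI` (with `Good2`, `B = K`): adapt the proof in `Pool/Agent/OSR/CaseI.lean`. The
differences: `hF` has `K * Z` in place of `B * Z`; `Zi ≤ K Z / 2 = 5000 ζ^2`, `Z ≤ 10^4 ζ^2`.

PROOF. With `H = {j < n : cl j = 2, σ j ≠ none}`, `hs + rs = E n` (`E_eq`), the claim is
`Zi T + ∑_H (c z_j - t_j / (10 m)) ≤ (c - 1) E n`. For `j ∈ H`: `t_j ≤ T` (`hosted_le`).
(1) If `E j ≥ ζ T / 8`: by `R.h3`, `F_ratio`, `F_anti`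
`z_j < F (t_j) (E j) ≤ (t_j/T) F T (E j) ≤ (t_j/T) F T (ζ T/8)`, and
`F T (ζ T / 8) = T * (Z / 2 * (K Z / (K Z + ζ / 8)) ^ ν) ≤ T / (10 c m)` (`G.hF`); so
`c z_j - t_j/(10 m) ≤ 0`.
(2) The sum of `z_j` over `j < n` with `cl j = 2`, `t_j ≤ T`, `E j < ζ T/8` is
`≤ ζ T / 8 + Z T / 2` (last such index).
So the left side is `≤ Zi T + c (ζ/8 + Z/2) T ≤ (c - 1) ζ T / 2`.
-/

open Finset
open scoped Classical

namespace Pool.Agent.OSR.Run

variable {m K : ℕ} {c Zi Z ν ζ ρ : ℝ} (R : Run m c Z K ν ζ) {n : ℕ}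
  {σ : ℕ → Option (Fin m)} {T : ℝ}

theorem caseI2 (G : Good2 m K c Zi Z ν ζ ρ) (hT : 0 < T)
    (h : ∀ i, sm n (fun j => σ j = some i) R.t ≤ T) (hE : ζ * T / 2 ≤ R.E n) :
    Zi * T + R.hs n σ 2 R.z ≤ (c - 1) * R.rs n σ 2 R.z + R.hs n σ 2 R.t / m / 10 := by
  have hm := G.hm
  have hm0 : (0 : ℝ) < m := by
    have : (10 : ℝ) ≤ m := by exact_mod_cast hm
    linarith
  have hζ0 := G.hζ0
  have hc1 := G.hc1
  have hc2 := G.hc2
  have hZ0 : 0 < Z := G.Z_pos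
  have hB0 : (0 : ℝ) < (K : ℝ) := by
    have : (1 : ℝ) ≤ K := by exact_mod_cast G.hK
    linarith
  have hν0 : 0 ≤ ν := le_trans zero_le_one G.hν1
  have hc0 : 0 < c := by linarith
  have hEn : ∀ j, 0 ≤ R.E j := fun j => sm_nonneg fun i _ hi => (R.z_pos (by rw [hi]; decide)).le
  have hZζ : Z ≤ 1 / 100 * ζ := by
    have h1 := G.Z_le
    have := G.hζ
    nlinarith
  have hKZζ : K * Z ≤ 1 / 100 * ζ := by
    rw [G.hZ]
    have := G.hζ
    nlinarith
  -- the value of the threshold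
  have hFT : F Z K ν T (ζ * T / 8) ≤ T * (1 / (10 * c * m)) := by
    have e : F Z K ν T (ζ * T / 8) = T * (Z / 2 * (K * Z / (K * Z + ζ / 8)) ^ ν) := by
      unfold F
      have e1 : K * Z * T / (K * Z * T + ζ * T / 8) = K * Z / (K * Z + ζ / 8) := by
        have h1 : K * Z * T + ζ * T / 8 = (K * Z + ζ / 8) * T := by ring
        rw [h1, mul_div_mul_right _ _ hT.ne']
      rw [e1]
      ring
    rw [e]
    exact mul_le_mul_of_nonneg_left G.hF hT.le
  -- late jobs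
  have hlate : ∀ j, R.cl j = 2 → R.t j ≤ T → ζ * T / 8 ≤ R.E j →
      c * R.z j ≤ R.t j / m / 10 := by
    intro j hj hjT hjE
    have h1 : R.z j < F Z K ν (R.t j) (R.E j) := (R.h3 j hj).2
    have h2 := F_ratio (B := (K : ℝ)) (ν := ν) hZ0 hB0 hν0 (R.ht j) hjT (hEn j)
    have h3 := F_anti (ν := ν) hZ0 hB0 hν0 hT (by positivity : 0 ≤ ζ * T / 8) hjE
    have h4 : R.t j / T * F Z K ν T (R.E j) ≤ R.t j / T * (T * (1 / (10 * c * m))) :=
      mul_le_mul_of_nonneg_left (h3.trans hFT) (div_nonneg (R.ht j).le hT.le)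
    have h5 : R.t j / T * (T * (1 / (10 * c * m))) = R.t j * (1 / (10 * c * m)) := by
      field_simp
    have h6 : R.z j ≤ R.t j * (1 / (10 * c * m)) := by linarith
    calc c * R.z j ≤ c * (R.t j * (1 / (10 * c * m))) := mul_le_mul_of_nonneg_left h6 hc0.le
      _ = R.t j / m / 10 := by field_simp
  -- early jobs
  have hearly : sm n (fun j => R.cl j = 2 ∧ R.t j ≤ T ∧ R.E j < ζ * T / 8) R.z ≤
      ζ * T / 8 + Z / 2 * T := by
    by_cases hex : ∃ j, j < n ∧ (R.cl j = 2 ∧ R.t j ≤ T ∧ R.E j < ζ * T / 8)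
    · obtain ⟨l, hl, ⟨hl1, hl2, hl3⟩, -, hsum⟩ := exists_last hex
      rw [hsum R.z]
      have h1 : sm l (fun j => R.cl j = 2 ∧ R.t j ≤ T ∧ R.E j < ζ * T / 8) R.z ≤ R.E l :=
        sm_le_of_imp (fun j _ hj => hj.1) fun j _ hj => (R.z_pos (by rw [hj]; decide)).le
      have h2 : R.z l < F Z K ν (R.t l) (R.E l) := (R.h3 l hl1).2
      have h3 := F_le (B := (K : ℝ)) (ν := ν) hZ0 hB0 hν0 (R.ht l) (hEn l)
      have h4 : Z / 2 * R.t l ≤ Z / 2 * T := mul_le_mul_of_nonneg_left hl2 (by positivity)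
      linarith
    · have h0 : sm n (fun j => R.cl j = 2 ∧ R.t j ≤ T ∧ R.E j < ζ * T / 8) R.z = 0 :=
        sm_eq_zero fun j hj hQ => hex ⟨j, hj, hQ⟩
      rw [h0]
      positivity
  have hle : ∀ j, j < n → σ j ≠ none → R.t j ≤ T := fun j hj hσ =>
    hosted_le (fun j => (R.ht j).le) h hj hσ
  -- the sum
  have hmain : c * R.hs n σ 2 R.z - R.hs n σ 2 R.t / m / 10 ≤ c * (ζ * T / 8 + Z / 2 * T) := by
    have e1 : c * R.hs n σ 2 R.z - R.hs n σ 2 R.t / m / 10 =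
        sm n (fun j => R.cl j = 2 ∧ σ j ≠ none) (fun j => c * R.z j - R.t j / m / 10) := by
      rw [sm_sub, sm_mul, sm_div, sm_div]
      rfl
    rw [e1, sm_split n _ (fun j => R.E j < ζ * T / 8)]
    have e2 : sm n (fun j => (R.cl j = 2 ∧ σ j ≠ none) ∧ ¬ R.E j < ζ * T / 8)
        (fun j => c * R.z j - R.t j / m / 10) ≤ 0 := by
      have : sm n (fun j => (R.cl j = 2 ∧ σ j ≠ none) ∧ ¬ R.E j < ζ * T / 8)
        (fun j => c * R.z j - R.t j / m / 10) ≤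
          sm n (fun j => (R.cl j = 2 ∧ σ j ≠ none) ∧ ¬ R.E j < ζ * T / 8) (fun _ => (0 : ℝ)) := by
        refine sm_le_sm fun j hj hQ => ?_
        have := hlate j hQ.1.1 (hle j hj hQ.1.2) (not_lt.1 hQ.2)
        linarith
      refine this.trans (le_of_eq ?_)
      simp [sm]
    have e3 : sm n (fun j => (R.cl j = 2 ∧ σ j ≠ none) ∧ R.E j < ζ * T / 8)
        (fun j => c * R.z j - R.t j / m / 10) ≤
        c * sm n (fun j => R.cl j = 2 ∧ R.t j ≤ T ∧ R.E j < ζ * T / 8) R.z := by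
      rw [← sm_mul]
      refine le_trans (b := sm n (fun j => (R.cl j = 2 ∧ σ j ≠ none) ∧ R.E j < ζ * T / 8)
        (fun j => c * R.z j)) ?_ ?_
      · refine sm_le_sm fun j hj hQ => ?_
        have : 0 ≤ R.t j / m / 10 := by
          have := (R.ht j).le
          positivity
        linarith
      · refine sm_le_of_imp (fun j hj hQ => ⟨hQ.1.1, hle j hj hQ.1.2, hQ.2⟩) fun j _ hQ => ?_
        exact mul_nonneg hc0.le (R.z_pos (by rw [hQ.1]; decide)).le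
    have e4 := mul_le_mul_of_nonneg_left hearly hc0.le
    linarith
  have hEeq := R.E_eq (n := n) (σ := σ)
  have hZi := G.hZi
  have f1 : Zi * T ≤ 1 / 200 * ζ * T := by
    apply mul_le_mul_of_nonneg_right _ hT.le
    linarith
  have f2 : c * (ζ * T / 8 + Z / 2 * T) ≤ 21 / 8 * (13 / 100 * (ζ * T)) := by
    have g1 : Z / 2 * T ≤ 1 / 200 * ζ * T := by
      apply mul_le_mul_of_nonneg_right _ hT.le
      linarith
    have g2 : ζ * T / 8 + Z / 2 * T ≤ 13 / 100 * (ζ * T) := by linarith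
    have g3 : 0 ≤ ζ * T / 8 + Z / 2 * T := by positivity
    exact mul_le_mul hc2 g2 g3 (by norm_num)
  have f3 : (8 / 5) * (ζ * T / 2) ≤ (c - 1) * R.E n := by
    apply mul_le_mul _ hE (by positivity) (by linarith)
    linarith
  have hζT : 0 < ζ * T := by positivity
  have f4 : (c - 1) * R.E n = (c - 1) * R.hs n σ 2 R.z + (c - 1) * R.rs n σ 2 R.z := by
    rw [hEeq]; ring
  have f5 : c * R.hs n σ 2 R.z = R.hs n σ 2 R.z + (c - 1) * R.hs n σ 2 R.z := by ring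
  linarith

end Pool.Agent.OSR.Run
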