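import Pool.Agent.OSR.FLem
import Pool.Agent.OSR.Sm

/-!
The main induction on the rule 3 jobs, version 2 (`K` in place of `1`). Adapt the proof of
`claim` in `Pool/Agent/OSR/Claim.lean`.

PROOF. Write `x_n = sm n Q z`, `W_n = sm n (Q ∧ W) z`, `U_n = sm n (Q ∧ W) (z j / F T x_j)`,
`Λ_n = K Z T + c W_n - (c - 1) x_n`, `Φ_n = c ρ F(T, x_n) (K + U_n) ≥ 0`. Claim `Λ_n ≤ Φ_n`,
by induction on `n` (`sm_succ`). Note `0 ≤ W_n ≤ x_n`, so `Λ_n ≤ K Z T + x_n`, and `0 ≤ U_n`.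

`n = 0`: `Λ_0 = K Z T ≤ c ρ (Z T / 2) K = Φ_0` (`F_zero`, `2 ≤ c ρ`).

Step, `¬ Q n`: nothing changes. Step, `Q n`: put `z = z_n > 0`, `x = x_n`,
`D = K Z T + x + z` (this is the denominator of `F_step` with `B = K`), `w = z / D`;
`F(T, x + z) ≥ (1 - ν w) F(T, x)` (`F_step`), and `ν w (K Z T + x) ≤ ν z` since `K Z T + x ≤ D`.

* `¬ W n`: `Λ' = Λ - (c-1) z`, `Φ' = c ρ F(T, x+z) (K + U)`. If `ν w ≥ 1` then
  `Λ' ≤ K Z T + x - (c - 1) z ≤ D - z - ν z ≤ 0`, because `ν z ≥ D` and `ν ≤ c - 1`; and `Φ' ≥ 0`.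
  If `ν w < 1` and `Λ ≤ 0` then `Λ' ≤ 0 ≤ Φ'`. If `ν w < 1` and `Λ > 0` then
  `Φ' ≥ (1 - ν w) Φ ≥ (1 - ν w) Λ ≥ Λ - ν w (K Z T + x) ≥ Λ - ν z ≥ Λ'`.
* `W n`: `z ≤ F(T, x) ≤ Z T / 2` (`F_le`), so `w ≤ z / (K Z T) ≤ 1 / (2 K)` and
  `ν w ≤ ν / (2 K) < 1` (from `hρ2`: the right side there is positive). `Λ' = Λ + z` and
  `Φ' = c ρ F(T, x+z) (K + U + z / F(T,x)) ≥ (1 - ν w) (Φ + c ρ z)` (`F(T,x) > 0`). If `Λ ≥ 0`:
  `Φ' ≥ (1 - ν w) Λ + c ρ (1 - ν/(2K)) z ≥ Λ - ν z + (1 + ν) z = Λ'`. If `Λ < 0`: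
  `Φ' ≥ (1 - ν w) c ρ z ≥ (1 + ν) z ≥ z ≥ Λ'`.
-/

open Finset
open scoped Classical

namespace Pool.Agent.OSR

private theorem claim2_step_notW {c ρ Z K ν T x z W U Fx Fy : ℝ} (hc : 1 < c) (hZ : 0 < Z)
    (hK : 1 ≤ K) (hν1 : 1 ≤ ν) (hν : ν ≤ c - 1) (hρ1 : 2 ≤ c * ρ) (hT : 0 < T)
    (hz : 0 < z) (hx : 0 ≤ x) (hWx : W ≤ x) (hU : 0 ≤ U) (hFy : 0 < Fy)
    (hst : (1 - ν * (z / (K * Z * T + x + z))) * Fx ≤ Fy)
    (ih : K * Z * T + c * W - (c - 1) * x ≤ c * ρ * Fx * (K + U)) :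
    K * Z * T + c * W - (c - 1) * (x + z) ≤ c * ρ * Fy * (K + U) := by
  have hZT : 0 < Z * T := mul_pos hZ hT
  have hKZT : 0 < K * Z * T := by
    have hK0 : 0 < K := by linarith
    positivity
  have hD : 0 < K * Z * T + x + z := by linarith
  have hR0 : 0 ≤ c * ρ * Fy * (K + U) := by
    have : 0 ≤ c * ρ := by linarith
    positivity
  have hΛ : K * Z * T + c * W - (c - 1) * x ≤ K * Z * T + x := by nlinarith
  have hνz : ν * z ≤ (c - 1) * z := mul_le_mul_of_nonneg_right hν hz.le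
  set w := z / (K * Z * T + x + z) with hw
  have hwD : w * (K * Z * T + x + z) = z := by
    rw [hw]; field_simp
  have hw0 : 0 < w := by rw [hw]; positivity
  by_cases h1 : K * Z * T + x + z ≤ ν * z
  · have : K * Z * T + c * W - (c - 1) * (x + z) ≤ 0 := by nlinarith
    linarith
  · have h1' : ν * z < K * Z * T + x + z := not_le.mp h1
    have hνw : ν * w < 1 := by
      have : ν * w * (K * Z * T + x + z) < 1 * (K * Z * T + x + z) := by
        rw [mul_assoc, hwD, one_mul]; exact h1'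
      exact lt_of_mul_lt_mul_right this hD.le
    by_cases h2 : K * Z * T + c * W - (c - 1) * x ≤ 0
    · have : K * Z * T + c * W - (c - 1) * (x + z) ≤ 0 := by nlinarith
      linarith
    · have h2' : 0 < K * Z * T + c * W - (c - 1) * x := not_le.mp h2
      have e1 : (1 - ν * w) * (c * ρ * Fx * (K + U)) ≤ c * ρ * Fy * (K + U) := by
        have hcr : 0 ≤ c * ρ * (K + U) := by
          have : 0 ≤ c * ρ := by linarith
          positivity
        have := mul_le_mul_of_nonneg_left hst hcr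
        calc (1 - ν * w) * (c * ρ * Fx * (K + U)) = c * ρ * (K + U) * ((1 - ν * w) * Fx) := by ring
          _ ≤ c * ρ * (K + U) * Fy := this
          _ = c * ρ * Fy * (K + U) := by ring
      have e2 : (1 - ν * w) * (K * Z * T + c * W - (c - 1) * x) ≤
          (1 - ν * w) * (c * ρ * Fx * (K + U)) :=
        mul_le_mul_of_nonneg_left ih (by linarith)
      have e3 : w * (K * Z * T + c * W - (c - 1) * x) ≤ z := by
        calc w * (K * Z * T + c * W - (c - 1) * x) ≤ w * (K * Z * T + x + z) :=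
              mul_le_mul_of_nonneg_left (by linarith) hw0.le
          _ = z := hwD
      have e4 : ν * (w * (K * Z * T + c * W - (c - 1) * x)) ≤ ν * z :=
        mul_le_mul_of_nonneg_left e3 (by linarith)
      nlinarith

private theorem claim2_step_W {c ρ Z K ν T x z W U Fx Fy : ℝ} (hc : 1 < c) (hZ : 0 < Z)
    (hK : 1 ≤ K) (hν1 : 1 ≤ ν) (hν : ν ≤ c - 1) (hρ1 : 2 ≤ c * ρ)
    (hρ2 : 1 + ν ≤ c * ρ * (1 - ν / (2 * K))) (hT : 0 < T)
    (hz : 0 < z) (hx : 0 ≤ x) (hWx : W ≤ x) (hU : 0 ≤ U) (hFx : 0 < Fx)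
    (hzF : z ≤ Fx) (hFle : Fx ≤ Z / 2 * T)
    (hst : (1 - ν * (z / (K * Z * T + x + z))) * Fx ≤ Fy)
    (ih : K * Z * T + c * W - (c - 1) * x ≤ c * ρ * Fx * (K + U)) :
    K * Z * T + c * (W + z) - (c - 1) * (x + z) ≤ c * ρ * Fy * (K + (U + z / Fx)) := by
  have hZT : 0 < Z * T := mul_pos hZ hT
  have hKZT : 0 < K * Z * T := by
    have hK0 : 0 < K := by linarith
    positivity
  have hD : 0 < K * Z * T + x + z := by linarith
  have hB0 : 0 < K := by linarith
  have hΛ : K * Z * T + c * W - (c - 1) * x ≤ K * Z * T + x := by nlinarith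
  set w := z / (K * Z * T + x + z) with hw
  have hwD : w * (K * Z * T + x + z) = z := by
    rw [hw]; field_simp
  have hw0 : 0 < w := by rw [hw]; positivity
  have hw2 : w ≤ 1 / (2 * K) := by
    rw [hw, div_le_div_iff₀ hD (by positivity)]
    have : z * (2 * K) ≤ K * Z * T := by
      have h3 : z ≤ Z / 2 * T := le_trans hzF hFle
      have := mul_le_mul_of_nonneg_right h3 (by positivity : (0:ℝ) ≤ 2 * K)
      nlinarith
    linarith
  have hνw : ν * w ≤ ν / (2 * K) := by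
    calc ν * w ≤ ν * (1 / (2 * K)) := mul_le_mul_of_nonneg_left hw2 (by linarith)
      _ = ν / (2 * K) := by ring
  have hcρ : 0 < c * ρ := by linarith
  have hpos : 0 < 1 - ν / (2 * K) := by
    by_contra hcon
    have : c * ρ * (1 - ν / (2 * K)) ≤ 0 :=
      mul_nonpos_of_nonneg_of_nonpos hcρ.le (not_lt.mp hcon)
    linarith
  have h1w : 0 < 1 - ν * w := by linarith
  have e1 : (1 - ν * w) * (c * ρ * Fx * (K + U) + c * ρ * z) ≤
      c * ρ * Fy * (K + (U + z / Fx)) := by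
    have hq : 0 ≤ z / Fx := by positivity
    have hcr : 0 ≤ c * ρ * (K + (U + z / Fx)) := by positivity
    have := mul_le_mul_of_nonneg_left hst hcr
    have e0 : Fx * (z / Fx) = z := by field_simp
    calc (1 - ν * w) * (c * ρ * Fx * (K + U) + c * ρ * z)
        = (1 - ν * w) * (c * ρ * Fx * (K + U) + c * ρ * (Fx * (z / Fx))) := by rw [e0]
      _ = c * ρ * (K + (U + z / Fx)) * ((1 - ν * w) * Fx) := by ring
      _ ≤ c * ρ * (K + (U + z / Fx)) * Fy := this
      _ = c * ρ * Fy * (K + (U + z / Fx)) := by ring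
  have e5 : (1 + ν) * z ≤ (1 - ν * w) * (c * ρ * z) := by
    have h5 : (1 + ν) * z ≤ c * ρ * (1 - ν / (2 * K)) * z :=
      mul_le_mul_of_nonneg_right hρ2 hz.le
    have h6 : (1 - ν / (2 * K)) * (c * ρ * z) ≤ (1 - ν * w) * (c * ρ * z) :=
      mul_le_mul_of_nonneg_right (by linarith) (by positivity)
    calc (1 + ν) * z ≤ c * ρ * (1 - ν / (2 * K)) * z := h5
      _ = (1 - ν / (2 * K)) * (c * ρ * z) := by ring
      _ ≤ _ := h6
  by_cases h2 : 0 ≤ K * Z * T + c * W - (c - 1) * x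
  · have e2 : (1 - ν * w) * (K * Z * T + c * W - (c - 1) * x) ≤
        (1 - ν * w) * (c * ρ * Fx * (K + U)) :=
      mul_le_mul_of_nonneg_left ih h1w.le
    have e3 : w * (K * Z * T + c * W - (c - 1) * x) ≤ z := by
      calc w * (K * Z * T + c * W - (c - 1) * x) ≤ w * (K * Z * T + x + z) :=
            mul_le_mul_of_nonneg_left (by linarith) hw0.le
        _ = z := hwD
    have e4 : ν * (w * (K * Z * T + c * W - (c - 1) * x)) ≤ ν * z :=
      mul_le_mul_of_nonneg_left e3 (by linarith)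
    nlinarith
  · have h2' : K * Z * T + c * W - (c - 1) * x < 0 := not_le.mp h2
    have e2 : 0 ≤ (1 - ν * w) * (c * ρ * Fx * (K + U)) := by positivity
    have e6 : 0 ≤ ν * z := by positivity
    nlinarith

theorem claim2 {c ρ Z K ν T : ℝ} (hc : 1 < c) (hZ : 0 < Z) (hK : 1 ≤ K) (hν1 : 1 ≤ ν)
    (hν : ν ≤ c - 1) (hρ0 : 0 < ρ) (hρ1 : 2 ≤ c * ρ)
    (hρ2 : 1 + ν ≤ c * ρ * (1 - ν / (2 * K))) (hT : 0 < T) (z : ℕ → ℝ) (Q W : ℕ → Prop)
    (hz : ∀ j, Q j → 0 < z j) (hW : ∀ j, Q j → W j → z j ≤ F Z K ν T (sm j Q z)) (n : ℕ) :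
    K * Z * T + c * sm n (fun j => Q j ∧ W j) z - (c - 1) * sm n Q z ≤
      c * ρ * F Z K ν T (sm n Q z) *
        (K + sm n (fun j => Q j ∧ W j) (fun j => z j / F Z K ν T (sm j Q z))) := by
  have hB0 : 0 < K := by linarith
  have hν0 : 0 ≤ ν := by linarith
  have hxn : ∀ n, 0 ≤ sm n Q z := fun n => sm_nonneg (fun j _ hq => (hz j hq).le)
  induction n with
  | zero =>
    simp only [sm_zero, mul_zero, add_zero, sub_zero]
    rw [F_zero hZ hB0 hT]
    have h1 : 0 < K * Z * T := by positivity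
    have h2 : c * ρ * (Z / 2 * T) * K = c * ρ * (K * Z * T) / 2 := by ring
    rw [h2]
    nlinarith
  | succ n ih =>
    have hWx : sm n (fun j => Q j ∧ W j) z ≤ sm n Q z :=
      sm_le_of_imp (fun j _ h => h.1) (fun j _ h => (hz j h).le)
    have hU : 0 ≤ sm n (fun j => Q j ∧ W j) (fun j => z j / F Z K ν T (sm j Q z)) :=
      sm_nonneg (fun j _ h => div_nonneg (hz j h.1).le (F_nonneg hZ hB0 hT (hxn j)))
    by_cases hQ : Q n
    · have hzn := hz n hQ
      have hst := F_step (x := sm n Q z) hZ hB0 hν1 hT (hxn n) hzn.le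
      by_cases hWn : W n
      · have e1 : sm (n + 1) (fun j => Q j ∧ W j) z = sm n (fun j => Q j ∧ W j) z + z n := by
          rw [sm_succ]; simp [hQ, hWn]
        have e2 : sm (n + 1) Q z = sm n Q z + z n := by
          rw [sm_succ]; simp [hQ]
        have e3 : sm (n + 1) (fun j => Q j ∧ W j) (fun j => z j / F Z K ν T (sm j Q z)) =
            sm n (fun j => Q j ∧ W j) (fun j => z j / F Z K ν T (sm j Q z)) +
              z n / F Z K ν T (sm n Q z) := by
          rw [sm_succ]; simp [hQ, hWn]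
        rw [e1, e2, e3]
        exact claim2_step_W hc hZ hK hν1 hν hρ1 hρ2 hT hzn (hxn n) hWx hU
          (F_pos hZ hB0 hT (hxn n)) (hW n hQ hWn) (F_le hZ hB0 hν0 hT (hxn n)) hst ih
      · have e1 : sm (n + 1) (fun j => Q j ∧ W j) z = sm n (fun j => Q j ∧ W j) z := by
          rw [sm_succ]; simp [hWn]
        have e2 : sm (n + 1) Q z = sm n Q z + z n := by
          rw [sm_succ]; simp [hQ]
        have e3 : sm (n + 1) (fun j => Q j ∧ W j) (fun j => z j / F Z K ν T (sm j Q z)) =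
            sm n (fun j => Q j ∧ W j) (fun j => z j / F Z K ν T (sm j Q z)) := by
          rw [sm_succ]; simp [hWn]
        rw [e1, e2, e3]
        exact claim2_step_notW hc hZ hK hν1 hν hρ1 hT hzn (hxn n) hWx hU
          (F_pos hZ hB0 hT (by linarith [hxn n])) hst ih
    · have e1 : sm (n + 1) (fun j => Q j ∧ W j) z = sm n (fun j => Q j ∧ W j) z := by
        rw [sm_succ]; simp [hQ]
      have e2 : sm (n + 1) Q z = sm n Q z := by
        rw [sm_succ]; simp [hQ]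
      have e3 : sm (n + 1) (fun j => Q j ∧ W j) (fun j => z j / F Z K ν T (sm j Q z)) =
          sm n (fun j => Q j ∧ W j) (fun j => z j / F Z K ν T (sm j Q z)) := by
        rw [sm_succ]; simp [hQ]
      rw [e1, e2, e3]
      exact ih

end Pool.Agent.OSR
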