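import Pool.Agent.OSR.Sm

/-!
The counting lemma, version 2: a finite set `S` of further long jobs hosted by `σ` in place of the
single job `l`. Adapt the proof of `count` in `Pool/Agent/OSR/Count.lean`.

PROOF. For a machine `i` let `G_i` be the number of `i'` with `σ (g i') = some i`, `S_i` the number
of `l ∈ S` with `σ l = some i`, and `w_i = (sum of t j over j < n, W j, σ j = some i) / T`.
Then `G_i + S_i + w_i ≤ 1` for every `i`: if `G_i = S_i = 0`, `w_i ≤ 1` by `hload` (subset). Two
different long jobs have total length `≥ 2 (1 - lam) T > T`, and a long job and a `W` job have total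
length `> T`, so if a long job is hosted on `i`, then it is the only long job and there is no `W`
job on `i`. Summing over the machines (`sum_sm_some` for `W`; `∑ i, G_i` is the number of `i'`
with `σ (g i') ≠ none`; `∑ i, S_i = S.card`):
`#{i' | σ (g i') ≠ none} + S.card + (sum over W hosted)/T ≤ m`.
-/

open Finset
open scoped Classical

namespace Pool.Agent.OSR

theorem count2 {m n : ℕ} {σ : ℕ → Option (Fin m)} {t : ℕ → ℝ} {T lam : ℝ} (ht : ∀ j, 0 < t j)
    (hT : 0 < T) (hl0 : 0 ≤ lam) (hl1 : lam < 1 / 2)
    (hload : ∀ i, sm n (fun j => σ j = some i) t ≤ T) (g : Fin m → ℕ)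
    (hg : Function.Injective g) (hgn : ∀ i, g i < n) (hgt : ∀ i, (1 - lam) * T ≤ t (g i))
    (S : Finset ℕ) (hS : ∀ l ∈ S, l < n ∧ σ l ≠ none ∧ (1 - lam) * T ≤ t l ∧ ∀ i, g i ≠ l)
    (W : ℕ → Prop) (hW : ∀ j, W j → lam * T < t j) (hWg : ∀ i, ¬ W (g i))
    (hWS : ∀ l ∈ S, ¬ W l) :
    (S.card : ℝ) + sm n (fun j => W j ∧ σ j ≠ none) t / T ≤
      ((univ.filter (fun i => σ (g i) = none)).card : ℝ) := by
  have hlT : lam * T < (1 - lam) * T := by nlinarith
  have hlT' : (1 - lam) * T = T - lam * T := by ring
  have pair : ∀ (i : Fin m) (a b : ℕ), a ≠ b → a < n → b < n → σ a = some i → σ b = some i →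
      t a + t b ≤ T := by
    intro i a b hab ha hb hσa hσb
    refine le_trans ?_ (hload i)
    unfold sm
    rw [← sum_pair hab]
    apply sum_le_sum_of_subset_of_nonneg
    · intro j hj
      rw [mem_insert, mem_singleton] at hj
      rcases hj with rfl | rfl
      · simp [ha, hσa]
      · simp [hb, hσb]
    · intro j _ _
      exact (ht j).le
  have hlong : ∀ (i : Fin m) (a : ℕ), a < n → (1 - lam) * T ≤ t a → σ a = some i →
      ∀ b, b ≠ a → b < n → σ b = some i → t b ≤ lam * T := by
    intro i a ha hta hσa b hb hbn hσb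
    have := pair i a b hb.symm ha hbn hσa hσb
    linarith
  have hw0 : ∀ (i : Fin m) (a : ℕ), a < n → (1 - lam) * T ≤ t a → σ a = some i → ¬ W a →
      sm n (fun j => W j ∧ σ j = some i) t = 0 := by
    intro i a ha hta hσa hWa
    apply sm_eq_zero
    rintro j hj ⟨hWj, hσj⟩
    have hne : j ≠ a := by
      rintro rfl
      exact hWa hWj
    have h1 := hlong i a ha hta hσa j hne hj hσj
    have h2 := hW j hWj
    linarith
  have h1 : ∀ i : Fin m, (((univ.filter (fun i' => σ (g i') = some i)).card : ℝ) +
      ((S.filter (fun l => σ l = some i)).card : ℝ)) +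
      sm n (fun j => W j ∧ σ j = some i) t / T ≤ 1 := by
    intro i
    by_cases h : ∃ i', σ (g i') = some i
    · obtain ⟨i', hi'⟩ := h
      rw [hw0 i (g i') (hgn i') (hgt i') hi' (hWg i'), zero_div, add_zero]
      have hc : (univ.filter (fun i' => σ (g i') = some i)).card ≤ 1 := by
        rw [card_le_one]
        intro a ha b hb
        simp only [mem_filter, mem_univ, true_and] at ha hb
        by_contra hab
        have h3 := hlong i (g a) (hgn a) (hgt a) ha (g b) (fun h => hab (hg h).symm) (hgn b) hb
        have h4 := hgt b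
        linarith
      have hs : S.filter (fun l => σ l = some i) = ∅ := by
        rw [filter_eq_empty_iff]
        intro l hl hσl
        obtain ⟨q1, q2, q3, q4⟩ := hS l hl
        have h3 := hlong i (g i') (hgn i') (hgt i') hi' l (fun e => q4 i' e.symm) q1 hσl
        linarith
      rw [hs, card_empty, Nat.cast_zero, add_zero]
      exact_mod_cast hc
    · have hf : univ.filter (fun i' => σ (g i') = some i) = ∅ := by
        rw [filter_eq_empty_iff]
        intro a _ ha
        exact h ⟨a, ha⟩
      rw [hf, card_empty, Nat.cast_zero, zero_add]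
      by_cases h' : ∃ l ∈ S, σ l = some i
      · obtain ⟨l, hl, hσl⟩ := h'
        obtain ⟨q1, q2, q3, q4⟩ := hS l hl
        rw [hw0 i l q1 q3 hσl (hWS l hl), zero_div, add_zero]
        have hc : (S.filter (fun l => σ l = some i)).card ≤ 1 := by
          rw [card_le_one]
          intro a ha b hb
          rw [mem_filter] at ha hb
          by_contra hab
          obtain ⟨p1, p2, p3, p4⟩ := hS a ha.1
          obtain ⟨s1, s2, s3, s4⟩ := hS b hb.1
          have h3 := hlong i a p1 p3 ha.2 b (fun h => hab h.symm) s1 hb.2
          linarith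
        exact_mod_cast hc
      · have hs : S.filter (fun l => σ l = some i) = ∅ := by
          rw [filter_eq_empty_iff]
          intro l hl hσl
          exact h' ⟨l, hl, hσl⟩
        rw [hs, card_empty, Nat.cast_zero, zero_add, div_le_one hT]
        exact le_trans (sm_le_of_imp (fun j _ h => h.2) (fun j _ _ => (ht j).le)) (hload i)
  have h3 := sum_le_sum (s := (univ : Finset (Fin m))) (fun i _ => h1 i)
  rw [sum_add_distrib, sum_add_distrib, ← sum_div, sum_sm_some, sum_const, card_univ,
    Fintype.card_fin, nsmul_eq_mul, mul_one] at h3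
  have h5 : ∑ i : Fin m, ((univ.filter (fun i' => σ (g i') = some i)).card : ℝ) =
      ((univ.filter (fun i' => ¬ σ (g i') = none)).card : ℝ) := by
    simp only [card_filter, Nat.cast_sum]
    rw [sum_comm]
    apply sum_congr rfl
    intro i' _
    rcases hσ : σ (g i') with _ | i1
    · simp
    · simp
  have h5' : ∑ i : Fin m, ((S.filter (fun l => σ l = some i)).card : ℝ) = (S.card : ℝ) := by
    simp only [card_filter, Nat.cast_sum]
    rw [sum_comm]
    rw [← nsmul_one, ← sum_const]
    apply sum_congr rfl
    intro l hl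
    obtain ⟨i0, hi0⟩ := Option.ne_none_iff_exists'.1 (hS l hl).2.1
    rw [hi0]
    simp
  have h6 := card_filter_add_card_filter_not (s := (univ : Finset (Fin m))) (fun i' => σ (g i') = none)
  rw [card_univ, Fintype.card_fin] at h6
  have h7 : ((univ.filter (fun i => σ (g i) = none)).card : ℝ) +
      ((univ.filter (fun i' => ¬ σ (g i') = none)).card : ℝ) = m := by
    exact_mod_cast h6
  linarith

end Pool.Agent.OSR
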