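import Pool.Agent.OSR2.EB2
import Pool.Agent.OSR2.Claim2
import Pool.Agent.OSR2.Count2

/-!
The requirement in a critical state, version 2: a set `S` of long rule 1 jobs hosted by `σ`, and a
number `k ≤ card S`, `k ≤ K`. Adapt the proof of `caseII` in `Pool/Agent/OSR/CaseII.lean`.

PROOF. Put `W j := cl j = 2 ∧ lam T < t j`, `P = ρ F(T, E n) ≥ 0`,
`wH = sm n (W ∧ σ ≠ none) t / T`.
(1) Counting (`count2`): `k + wH ≤ card S + wH ≤ #{i | σ (g i) = none}`.
(2) For every `i`: `z (g i) ≥ P` (as in version 1: `R.h3'`, `E (g i) ≤ E n < ζ T / 2 ≤ ζ t`,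
`F_mono`, `F_scale`, `F_anti`, `hρ3`).
(3) `rx n σ s z ≥ P (k + wH)`.
(4) `claim2` with `Q j := cl j = 2`, `W' j := lam T < t j ∧ t j ≤ T`. With
`V = sm n (Q ∧ W') z`, `U = sm n (Q ∧ W') (z / F T (E j))`:
`K Z T + c V - (c-1) E n ≤ c P (K + U)`.
(5) as in version 1: `hs 2 z ≤ Esmall + hb` and `hb - P wH ≤ V - P U`.
(6) The claim is `Zi T + c hs2z - (c-1) E n ≤ c rx z + Gg`. The left side is
`≤ (Zi - K Z) T + c Esmall + c P (K + wH) = (Zi - K Z) T + c Esmall + c P (K - k) + c P (k + wH)`,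
and `c P (K - k) ≤ c ρ (K - k) (Z/2) T` (`F_le`, `k ≤ K`); use `hG` and (3).
-/

open Finset
open scoped Classical

namespace Pool.Agent.OSR.Run

variable {m K : ℕ} {c Zi Z ν ζ ρ : ℝ} (R : Run m c Z K ν ζ) {n : ℕ}
  {σ : ℕ → Option (Fin m)} {T : ℝ}

theorem caseII2 (G : Good2 m K c Zi Z ν ζ ρ) (hT : 0 < T)
    (h : ∀ i, sm n (fun j => σ j = some i) R.t ≤ T) (hE : R.E n < ζ * T / 2) {lam : ℝ}
    (hl0 : 0 ≤ lam) (hl1 : lam ≤ 50 * ζ + 25 * √(2 * ζ)) (s : ℕ) (g : Fin m → ℕ)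
    (hg : Function.Injective g) (hgn : ∀ i, g i < n) (hgs : ∀ i, g i ≠ s)
    (hgc : ∀ i, R.cl (g i) = 3) (hgt : ∀ i, (1 - lam) * T ≤ R.t (g i)) (S : Finset ℕ)
    (hS : ∀ l ∈ S, l < n ∧ R.cl l = 1 ∧ σ l ≠ none ∧ (1 - lam) * T ≤ R.t l) {k : ℕ}
    (hk : k ≤ S.card) (hkK : k ≤ K) {Gg : ℝ}
    (hG : c * sm n (fun j => R.cl j = 2 ∧ R.t j ≤ lam * T) R.z +
      c * ρ * ((K : ℝ) - k) * (Z / 2) * T ≤ (K * Z - Zi) * T + Gg) :
    Zi * T + R.hs n σ 2 R.z ≤ c * R.rx n σ s R.z + (c - 1) * R.rs n σ 2 R.z + Gg := by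
  have hm0 : (0 : ℝ) < m := by
    have := G.hm
    have h2 : 0 < m := by omega
    exact_mod_cast h2
  have hc := G.hc1
  have hζ0 := G.hζ0
  have hζ := G.hζ
  have hν1 := G.hν1
  have hν := G.hν
  have hρ0 := G.hρ0
  have hK1 : (1 : ℝ) ≤ K := by exact_mod_cast G.hK
  have hK0 : (0 : ℝ) < K := by linarith
  have hν0 : 0 ≤ ν := by linarith
  have hZ0 : 0 < Z := G.Z_pos
  have hsq : √(2 * ζ) ≤ 15 / 10000 := by
    rw [Real.sqrt_le_left (by norm_num)]
    norm_num at hζ ⊢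
    linarith
  have hlam : lam ≤ 1 / 20 := by
    norm_num at hζ
    linarith
  have hx1 : 50 * ζ + 25 * √(2 * ζ) ≤ 1 / 20 := by
    norm_num at hζ
    linarith
  have hx0 : 0 ≤ 50 * ζ + 25 * √(2 * ζ) := by positivity
  have hEdef : ∀ j, R.E j = sm j (fun i => R.cl i = 2) R.z := fun j => rfl
  have hzpos : ∀ j, R.cl j = 2 → 0 < R.z j := fun j hj => R.z_pos (by rw [hj]; decide)
  have hE0 : ∀ j, 0 ≤ R.E j := fun j => sm_nonneg (fun i _ hi => (hzpos i hi).le)
  have hEmono : ∀ {j k : ℕ}, j ≤ k → R.E j ≤ R.E k := fun hjk =>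
    sm_mono hjk (fun i _ hi => (hzpos i hi).le)
  have hF0 : ∀ j, 0 < F Z K ν T (R.E j) := fun j => F_pos hZ0 hK0 hT (hE0 j)
  -- the threshold at the end
  obtain ⟨P, hP⟩ : ∃ P, P = ρ * F Z K ν T (R.E n) := ⟨_, rfl⟩
  have hP0 : 0 ≤ P := by rw [hP]; exact mul_nonneg hρ0.le (hF0 n).le
  have hρ1 : ρ ≤ 1 := by
    refine G.hρ3.trans ?_
    apply Real.rpow_le_one (by linarith) (by linarith) (by linarith)
  have hPF : ∀ j, j ≤ n → P ≤ F Z K ν T (R.E j) := by
    intro j hj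
    have h1 : F Z K ν T (R.E n) ≤ F Z K ν T (R.E j) := F_anti hZ0 hK0 hν0 hT (hE0 j) (hEmono hj)
    have h2 : ρ * F Z K ν T (R.E n) ≤ 1 * F Z K ν T (R.E n) :=
      mul_le_mul_of_nonneg_right hρ1 (hF0 n).le
    rw [hP]; linarith
  -- (1)
  have hcount := count2 (n := n) (σ := σ) (t := R.t) R.ht hT hl0 (by linarith) h g hg hgn hgt S
    (fun l hl => ⟨(hS l hl).1, (hS l hl).2.2.1, (hS l hl).2.2.2, fun i hi => by
      have h1 := hgc i
      rw [hi, (hS l hl).2.1] at h1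
      exact absurd h1 (by decide)⟩)
    (fun j => R.cl j = 2 ∧ lam * T < R.t j) (fun j hj => hj.2)
    (fun i hi => by
      have h1 := hi.1
      rw [hgc i] at h1
      exact absurd h1 (by decide))
    (fun l hl hi => by
      have h1 := hi.1
      rw [(hS l hl).2.1] at h1
      exact absurd h1 (by decide))
  -- (2)
  have hzg : ∀ i, P ≤ R.z (g i) := by
    intro i
    have hti := hgt i
    have htT : T / 2 ≤ R.t (g i) := by nlinarith
    have h3 : ζ * R.t (g i) ≤ R.E (g i) ∨ F Z K ν (R.t (g i)) (R.E (g i)) ≤ R.z (g i) :=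
      R.h3' (g i) (hgc i)
    rcases h3 with h3 | h3
    · exfalso
      have h4 : R.E (g i) ≤ R.E n := hEmono (hgn i).le
      nlinarith
    · have h5 : F Z K ν ((1 - lam) * T) (R.E (g i)) ≤ F Z K ν (R.t (g i)) (R.E (g i)) :=
        F_mono hZ0 hK0 hν0 (by nlinarith) hti (hE0 _)
      have h6 : (1 - lam) ^ (1 + ν) * F Z K ν T (R.E (g i)) ≤
          F Z K ν ((1 - lam) * T) (R.E (g i)) :=
        F_scale hZ0 hK0 hν0 (by linarith) (by linarith) hT (hE0 _)
      have h7 : F Z K ν T (R.E n) ≤ F Z K ν T (R.E (g i)) :=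
        F_anti hZ0 hK0 hν0 hT (hE0 _) (hEmono (hgn i).le)
      have h8 : ρ ≤ (1 - lam) ^ (1 + ν) := by
        refine G.hρ3.trans ?_
        apply Real.rpow_le_rpow (by linarith) (by linarith) (by linarith)
      have h9 : P ≤ (1 - lam) ^ (1 + ν) * F Z K ν T (R.E (g i)) := by
        rw [hP]
        exact mul_le_mul h8 h7 (hF0 n).le (by linarith)
      linarith
  -- (3)
  have hrx : P * (k + sm n (fun j => (R.cl j = 2 ∧ lam * T < R.t j) ∧ σ j ≠ none) R.t / T) ≤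
      R.rx n σ s R.z := by
    have h1 : ∑ i ∈ univ.filter (fun i => σ (g i) = none), R.z (g i) ≤ R.rx n σ s R.z := by
      have h2 : ∑ i ∈ univ.filter (fun i => σ (g i) = none), R.z (g i) =
          ∑ j ∈ (univ.filter (fun i => σ (g i) = none)).image g, R.z j := by
        rw [sum_image (fun a _ b _ hab => hg hab)]
      rw [h2]
      unfold rx sm
      apply sum_le_sum_of_subset_of_nonneg
      · intro j hj
        rw [mem_image] at hj
        obtain ⟨i, hi, rfl⟩ := hj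
        have hi2 := (Finset.mem_filter.1 hi).2
        simp only [mem_filter, mem_range]
        exact ⟨hgn i, hgc i, hgs i, hi2⟩
      · intro j hj _
        simp only [mem_filter, mem_range] at hj
        exact (R.z_pos (by rw [hj.2.1]; decide)).le
    have h3 : ((univ.filter (fun i => σ (g i) = none)).card : ℝ) * P ≤
        ∑ i ∈ univ.filter (fun i => σ (g i) = none), R.z (g i) := by
      have := card_nsmul_le_sum (univ.filter (fun i => σ (g i) = none)) (fun i => R.z (g i)) P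
        (fun i _ => hzg i)
      rwa [nsmul_eq_mul] at this
    have h4 := mul_le_mul_of_nonneg_left hcount hP0
    have h5 : P * (k : ℝ) ≤ P * (S.card : ℝ) :=
      mul_le_mul_of_nonneg_left (by exact_mod_cast hk) hP0
    nlinarith
  -- (4)
  have hzF : ∀ j, R.cl j = 2 → R.t j ≤ T → R.z j ≤ R.t j / T * F Z K ν T (R.E j) := by
    intro j hj ht
    have h1 : R.z j < F Z K ν (R.t j) (R.E j) := (R.h3 j hj).2
    have h2 := F_ratio (x := R.E j) hZ0 hK0 hν0 (R.ht j) ht (hE0 j)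
    linarith
  have hclaim := claim2 (T := T) (by linarith : 1 < c) hZ0 hK1 hν1 hν hρ0 G.hρ1 G.hρ2 hT R.z
    (fun j => R.cl j = 2) (fun j => lam * T < R.t j ∧ R.t j ≤ T) hzpos (fun j hj hW => by
      refine (hzF j hj hW.2).trans ?_
      have h1 : R.t j / T ≤ 1 := by rw [div_le_one hT]; exact hW.2
      have h2 : R.t j / T * F Z K ν T (R.E j) ≤ 1 * F Z K ν T (R.E j) :=
        mul_le_mul_of_nonneg_right h1 (hF0 j).le
      rw [one_mul] at h2
      exact h2) n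
  change K * Z * T + c * sm n (fun j => R.cl j = 2 ∧ (lam * T < R.t j ∧ R.t j ≤ T)) R.z -
    (c - 1) * R.E n ≤ c * ρ * F Z K ν T (R.E n) *
      (K + sm n (fun j => R.cl j = 2 ∧ (lam * T < R.t j ∧ R.t j ≤ T))
        (fun j => R.z j / F Z K ν T (R.E j))) at hclaim
  -- (5)
  have hhs : R.hs n σ 2 R.z ≤ sm n (fun j => R.cl j = 2 ∧ R.t j ≤ lam * T) R.z +
      sm n (fun j => (R.cl j = 2 ∧ lam * T < R.t j) ∧ σ j ≠ none) R.z := by
    unfold hs
    rw [sm_split n (fun j => R.cl j = 2 ∧ σ j ≠ none) (fun j => R.t j ≤ lam * T)]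
    apply add_le_add
    · apply sm_le_of_imp
      · intro j _ hj
        exact ⟨hj.1.1, hj.2⟩
      · intro j _ hj
        exact (hzpos j hj.1).le
    · apply le_of_eq
      apply sm_congr
      · intro j _
        rw [not_le]
        tauto
      · intro j _ _
        rfl
  have hVU : sm n (fun j => (R.cl j = 2 ∧ lam * T < R.t j) ∧ σ j ≠ none) R.z -
      P * (sm n (fun j => (R.cl j = 2 ∧ lam * T < R.t j) ∧ σ j ≠ none) R.t / T) ≤
      sm n (fun j => R.cl j = 2 ∧ (lam * T < R.t j ∧ R.t j ≤ T)) R.z -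
      P * sm n (fun j => R.cl j = 2 ∧ (lam * T < R.t j ∧ R.t j ≤ T))
        (fun j => R.z j / F Z K ν T (R.E j)) := by
    have e1 : sm n (fun j => (R.cl j = 2 ∧ lam * T < R.t j) ∧ σ j ≠ none) R.z -
        P * (sm n (fun j => (R.cl j = 2 ∧ lam * T < R.t j) ∧ σ j ≠ none) R.t / T) =
        sm n (fun j => (R.cl j = 2 ∧ lam * T < R.t j) ∧ σ j ≠ none)
          (fun j => R.z j - P * (R.t j / T)) := by
      rw [sm_sub, sm_mul, sm_div]
    have e2 : sm n (fun j => R.cl j = 2 ∧ (lam * T < R.t j ∧ R.t j ≤ T)) R.z -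
        P * sm n (fun j => R.cl j = 2 ∧ (lam * T < R.t j ∧ R.t j ≤ T))
          (fun j => R.z j / F Z K ν T (R.E j)) =
        sm n (fun j => R.cl j = 2 ∧ (lam * T < R.t j ∧ R.t j ≤ T))
          (fun j => R.z j - P * (R.z j / F Z K ν T (R.E j))) := by
      rw [sm_sub, sm_mul]
    rw [e1, e2]
    have e3 : sm n (fun j => (R.cl j = 2 ∧ lam * T < R.t j) ∧ σ j ≠ none)
          (fun j => R.z j - P * (R.t j / T)) ≤
        sm n (fun j => (R.cl j = 2 ∧ lam * T < R.t j) ∧ σ j ≠ none)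
          (fun j => R.z j - P * (R.z j / F Z K ν T (R.E j))) := by
      apply sm_le_sm
      intro j hj hW
      have ht : R.t j ≤ T := hosted_le (fun j => (R.ht j).le) h hj hW.2
      have h1 := hzF j hW.1.1 ht
      have h2 : R.z j / F Z K ν T (R.E j) ≤ R.t j / T := by
        rw [div_le_iff₀ (hF0 j)]; exact h1
      have h3 := mul_le_mul_of_nonneg_left h2 hP0
      linarith
    refine e3.trans ?_
    apply sm_le_of_imp
    · intro j hj hW
      exact ⟨hW.1.1, hW.1.2, hosted_le (fun j => (R.ht j).le) h hj hW.2⟩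
    · intro j hj hW
      have h1 := hPF j hj.le
      have h2 : P * (R.z j / F Z K ν T (R.E j)) ≤
          F Z K ν T (R.E j) * (R.z j / F Z K ν T (R.E j)) :=
        mul_le_mul_of_nonneg_right h1 (div_nonneg (hzpos j hW.1).le (hF0 j).le)
      rw [mul_div_cancel₀ _ (hF0 j).ne'] at h2
      linarith
  -- (6)
  have hEe := R.E_eq (n := n) (σ := σ)
  have hcP : c * ρ * F Z K ν T (R.E n) = c * P := by rw [hP]; ring
  rw [hcP] at hclaim
  have hrs : R.rs n σ 2 R.z = R.E n - R.hs n σ 2 R.z := by linarith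
  rw [hrs]
  have f1 := mul_le_mul_of_nonneg_left hhs (by linarith : (0 : ℝ) ≤ c)
  have f2 := mul_le_mul_of_nonneg_left hVU (by linarith : (0 : ℝ) ≤ c)
  have f3 := mul_le_mul_of_nonneg_left hrx (by linarith : (0 : ℝ) ≤ c)
  have hPle : P ≤ ρ * (Z / 2 * T) := by
    rw [hP]
    exact mul_le_mul_of_nonneg_left (F_le hZ0 hK0 hν0 hT (hE0 n)) hρ0.le
  have hkK' : (k : ℝ) ≤ K := by exact_mod_cast hkK
  have f4 : c * ((K : ℝ) - k) * P ≤ c * ((K : ℝ) - k) * (ρ * (Z / 2 * T)) :=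
    mul_le_mul_of_nonneg_left hPle (mul_nonneg (by linarith) (by linarith))
  nlinarith

end Pool.Agent.OSR.Run
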