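import Pool.Agent.OSR.Defs

/-!
Version 2 of the parameters: `K` is the number of long rule 1 jobs in a critical state; the base
deficit is `K Z` in place of `Z`, and `B = K` in the threshold function `F`.
-/

open Finset
open scoped Classical

namespace Pool.Agent.OSR

noncomputable section

/-- The conditions on the parameters (version 2). -/
structure Good2 (m K : ℕ) (c Zi Z ν ζ ρ : ℝ) : Prop where
  hm : 10 ≤ m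
  hK : 1 ≤ K
  hc1 : 13 / 5 ≤ c
  hc2 : c ≤ 21 / 8
  hb : (c - 1) * (c - 2 + Zi) = 1
  hZi0 : 0 ≤ Zi
  hZi : Zi ≤ K * Z / 2
  hζ0 : 0 < ζ
  hζ : ζ ≤ 1 / 10 ^ 6
  hZ : K * Z = 10 ^ 4 * ζ ^ 2
  hKζ : (8 / 3) ^ K * (660 * ζ) ≤ 1
  hν1 : 1 ≤ ν
  hν : ν ≤ c - 1
  hρ0 : 0 < ρ
  hρ1 : 2 ≤ c * ρ
  hρ2 : 1 + ν ≤ c * ρ * (1 - ν / (2 * K))
  hρ3 : ρ ≤ (1 - (50 * ζ + 25 * √(2 * ζ))) ^ (1 + ν)
  hmζ : 2 ≤ 7 * ζ * m
  hF : Z / 2 * (K * Z / (K * Z + ζ / 8)) ^ ν ≤ 1 / (10 * c * m)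

end

end Pool.Agent.OSR
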