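import Pool.Agent.OSR.Crit
import Pool.Agent.OSR2.Defs

/-!
Version 2 of `crit` (with `Good2`). Adapt the proof in `Pool/Agent/OSR/Crit.lean` (`mux_ge`,
`x1_le`, `pack_main`); there `Good` is used only for `hm`, `c ∈ [13/5, 21/8]`, `hb`, `0 ≤ Zi`,
`ζ`, `hmζ`. The last conclusion: `(c-2+Zi) T - x1 ≤ g' T` (the other two summands of `hg` are
nonnegative), multiply by `c - 1` and use `hb`.
-/

open Finset
open scoped Classical

namespace Pool.Agent.OSR.Run

variable {m K : ℕ} {c Zi Z ν ζ ρ : ℝ} (R : Run m c Z K ν ζ) {n : ℕ}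
  {σ : ℕ → Option (Fin m)} {T : ℝ}

theorem crit2 (G : Good2 m K c Zi Z ν ζ ρ) (hT : 0 < T)
    (h : ∀ i, sm n (fun j => σ j = some i) R.t ≤ T) {s : ℕ} (hs : s < n)
    (hL : ∀ i, R.load s (R.ma s) ≤ R.load s i) {g' : ℝ}
    (hg : (R.mux n s - R.load s (R.ma s)) + |R.mux n s - T| / 10 +
      ((c - 2 + Zi) * T - R.hs n σ 1 R.p) = g' * T) (hg2 : g' < 2 * ζ) :
    0 ≤ g' ∧ (∃ g : Fin m → ℕ, Function.Injective g ∧ (∀ i, g i < s) ∧
      (∀ i, R.cl (g i) = 3) ∧ (∀ i, (1 - (50 * ζ + 25 * √g')) * T ≤ R.t (g i))) ∧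
      T - (c - 1) * R.hs n σ 1 R.p ≤ (c - 1) * g' * T := by
  have hm10 := G.hm
  have hm : 0 < m := by omega
  have hm0 : (0 : ℝ) < m := by exact_mod_cast hm
  have hc1 := G.hc1
  have hc2 := G.hc2
  have hb := G.hb
  have hZi0 := G.hZi0
  have hζ0 := G.hζ0
  have hζ := G.hζ
  have hmζ := G.hmζ
  obtain ⟨hmx1, hmx2⟩ := R.mux_ge hm hs hL
  have hx := R.x1_le (by linarith : (1 : ℝ) < c) hT.le h
  set μ := R.mux n s with hμ
  set a0 := R.load s (R.ma s) with ha0
  set x1 := R.hs n σ 1 R.p with hx1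
  have hx2 : x1 ≤ (c - 2 + Zi) * T := by
    have : (c - 1) * x1 ≤ (c - 1) * ((c - 2 + Zi) * T) := by
      rw [← mul_assoc, hb, one_mul]
      exact hx
    exact le_of_mul_le_mul_left this (by linarith)
  have habs : 0 ≤ |μ - T| / 10 := by positivity
  have hg0T : 0 ≤ g' * T := by
    rw [← hg]
    have : 0 ≤ μ - a0 := by linarith
    have : 0 ≤ (c - 2 + Zi) * T - x1 := by linarith
    positivity
  have hg0 : 0 ≤ g' := nonneg_of_mul_nonneg_left hg0T hT
  refine ⟨hg0, ?_⟩
  have hA : |μ - T| ≤ 10 * g' * T := by linarith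
  have hA1 := abs_le.1 hA
  have hB : μ - a0 ≤ g' * T := by linarith
  have hC : (c - 2 + Zi) * T - g' * T ≤ x1 := by linarith
  -- bounds for g'
  have hg6 : g' < 2 / 10 ^ 6 := by
    have : 2 * ζ ≤ 2 / 10 ^ 6 := by linarith
    linarith
  set r := √g' with hr
  have hr0 : 0 ≤ r := Real.sqrt_nonneg _
  have hr2 : r * r = g' := Real.mul_self_sqrt hg0
  have hr3 : r ≤ 15 / 10 ^ 4 := by
    by_contra hcon
    have hcon := not_le.1 hcon
    have : (15 / 10 ^ 4 : ℝ) * (15 / 10 ^ 4) < r * r := by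
      apply mul_lt_mul'' hcon hcon <;> norm_num
    rw [hr2] at this
    norm_num at this hg6
    linarith
  have hgr : g' ≤ 15 / 10 ^ 4 * r := by
    rw [← hr2]
    exact mul_le_mul_of_nonneg_right hr3 hr0
  -- apply the packing lemma
  have hζp : ζ ≤ 1 / 10 := by
    have : (1 / 10 ^ 6 : ℝ) ≤ 1 / 10 := by norm_num
    linarith
  have h2m : (2 : ℝ) / m ≤ 7 * ζ := by
    rw [div_le_iff₀ hm0]
    exact hmζ
  have hmain := Pack.pack_main (R.pack) hm10 hζ0.le hζp (η := 11 * g') (d := 10 * ζ + 5 * r)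
    (T := T) hT (by positivity)
    (by
      have : 66 * g' ≤ 5 * r := by
        calc 66 * g' ≤ 66 * (15 / 10 ^ 4 * r) := by linarith
          _ ≤ 5 * r := by
            norm_num
            linarith
      linarith)
    (by
      have h1 : (10 * ζ + 5 * r) ^ 2 = 100 * ζ ^ 2 + 100 * (ζ * r) + 25 * g' := by
        rw [← hr2]
        ring
      rw [h1]
      have : 0 < ζ ^ 2 := by positivity
      have : 0 ≤ ζ * r := by positivity
      linarith)
    (by
      norm_num at hr3 hζ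
      linarith)
    (N := s)
    (by
      intro i
      change (1 - 11 * g') * T ≤ R.load s i
      have := hL i
      have : (1 - 11 * g') * T ≤ a0 := by linarith
      linarith)
    (by
      change ∑ i, R.load s i ≤ _
      refine hmx2.trans ?_
      have : μ ≤ (1 + 11 * g') * T := by linarith
      calc (m : ℝ) * μ ≤ m * ((1 + 11 * g') * T) := mul_le_mul_of_nonneg_left this hm0.le
        _ = _ := by ring)
  choose g hg1 hg2' hg3 hg4 using hmain
  have hlam : (1 - 5 * (10 * ζ + 5 * r)) * T = (1 - (50 * ζ + 25 * r)) * T := by ring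
  refine ⟨⟨g, ?_, hg1, hg2', ?_⟩, ?_⟩
  · intro i j hij
    have h1 : R.ma (g i) = i := hg3 i
    have h2 : R.ma (g j) = j := hg3 j
    rw [← h1, ← h2, hij]
  · intro i
    have := hg4 i
    rw [hlam] at this
    exact this
  · have h1 : (c - 1) * ((c - 2 + Zi) * T - g' * T) ≤ (c - 1) * x1 :=
      mul_le_mul_of_nonneg_left hC (by linarith)
    have h2 : (c - 1) * ((c - 2 + Zi) * T - g' * T) = T - (c - 1) * (g' * T) := by
      calc (c - 1) * ((c - 2 + Zi) * T - g' * T)
          = (c - 1) * (c - 2 + Zi) * T - (c - 1) * (g' * T) := by ring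
        _ = _ := by rw [hb, one_mul]
    have h3 : (c - 1) * g' * T = (c - 1) * (g' * T) := by ring
    rw [h3]
    linarith

end Pool.Agent.OSR.Run
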