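import Pool.Agent.OSR.EB
import Pool.Agent.OSR2.Defs

/-!
Version 2 of `E_le_X` (with `Good2`, `B = K`). Adapt the proof in `Pool/Agent/OSR/EB.lean`; the
only difference is `K * Z = 10^4 ζ^2`, `K ≥ 1`, so `0 < Z ≤ 10^4 ζ^2`.

PROOF. If there is no index with `cl = 2` then `E n = 0`. Let `l` be the last one (`exists_last`);
`E n ≤ (ζ + Z/2) t l`. By `R.h1' l`, `t l ≤ (c-1) X l + c p l`, `p l = z l + 4/5 * t l / m`,
`z l ≤ Z/2 * t l`; so `(c-1) X n ≥ (c-1) X l ≥ t l (1 - c Z/2 - 4c/(5m)) ≥ t l * 3/4`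
(`c ≤ 21/8`, `m ≥ 10`). And `ζ + Z/2 ≤ 3/2 ζ`.
-/

open Finset
open scoped Classical

namespace Pool.Agent.OSR

theorem Good2.Z_pos {m K : ℕ} {c Zi Z ν ζ ρ : ℝ} (G : Good2 m K c Zi Z ν ζ ρ) : 0 < Z := by
  have hK : (0 : ℝ) < K := by exact_mod_cast G.hK
  have h1 : 0 < (K : ℝ) * Z := by
    rw [G.hZ]
    have := G.hζ0
    positivity
  exact pos_of_mul_pos_right h1 hK.le

theorem Good2.Z_le {m K : ℕ} {c Zi Z ν ζ ρ : ℝ} (G : Good2 m K c Zi Z ν ζ ρ) :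
    Z ≤ 10 ^ 4 * ζ ^ 2 := by
  have hK : (1 : ℝ) ≤ K := by exact_mod_cast G.hK
  rw [← G.hZ]
  exact le_mul_of_one_le_left G.Z_pos.le hK

namespace Run

variable {m K : ℕ} {c Zi Z ν ζ ρ : ℝ} (R : Run m c Z K ν ζ)

theorem E_le_X2 (G : Good2 m K c Zi Z ν ζ ρ) (n : ℕ) :
    R.E n ≤ 2 * ζ * ((c - 1) * R.X n) := by
  have hζ0 := G.hζ0
  have hζ1 := G.hζ
  have hc1 := G.hc1
  have hc2 := G.hc2
  have hX0 : 0 ≤ R.X n := sm_nonneg (fun j _ _ => (R.hp j).le)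
  by_cases h : ∃ j, j < n ∧ R.cl j = 2
  · obtain ⟨l, hl, hc, _, hf⟩ := exists_last h
    have hE : R.E n = sm l (fun j => R.cl j = 2) R.z + R.z l := hf R.z
    have h2 := R.h3 l hc
    have h0 : 0 ≤ sm l (fun j => R.cl j = 2) (net m R.t R.p) :=
      sm_nonneg (fun j _ h => (R.z_pos (by rw [h]; decide)).le)
    have hZ0 : 0 < Z := G.Z_pos
    have hK0 : (0 : ℝ) < K := by exact_mod_cast G.hK
    have h3 := F_le hZ0 hK0 (by linarith [G.hν1] : (0:ℝ) ≤ ν) (R.ht l) h0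
    have h4 : sm l (fun j => R.cl j = 2) R.z < ζ * R.t l := h2.1
    have h5 : R.z l ≤ Z / 2 * R.t l := h2.2.le.trans h3
    have h6 := R.h1' l (Or.inl hc)
    have h7 : sm l (fun i => R.cl i = 1) R.p ≤ R.X n :=
      sm_mono hl.le (fun j _ _ => (R.hp j).le)
    have h8 : R.p l = R.z l + 4 / 5 * R.t l / m := by rw [R.z_eq]; ring
    have ht := R.ht l
    have hm : (10 : ℝ) ≤ m := by exact_mod_cast G.hm
    have h9 : 4 / 5 * R.t l / m ≤ 4 / 50 * R.t l := by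
      rw [div_le_iff₀ (by linarith)]
      nlinarith
    have hZ2 : Z / 2 ≤ 1 / 200 * ζ := by
      have h21 := G.Z_le
      have : ζ ^ 2 ≤ 1 / 10 ^ 6 * ζ := by nlinarith
      linarith
    have hz0 : 0 < R.z l := R.z_pos (by rw [hc]; decide)
    have h10 : R.z l ≤ 1 / 10 ^ 8 * R.t l := by
      have : Z / 2 * R.t l ≤ 1 / 10 ^ 8 * R.t l :=
        mul_le_mul_of_nonneg_right (by linarith) ht.le
      linarith
    have h11 : c * R.p l ≤ 21 / 8 * R.p l := mul_le_mul_of_nonneg_right hc2 (R.hp l).le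
    have h12 : (c - 1) * sm l (fun i => R.cl i = 1) R.p ≤ (c - 1) * R.X n :=
      mul_le_mul_of_nonneg_left h7 (by linarith)
    have h13 : 3 / 4 * R.t l ≤ (c - 1) * R.X n := by
      rw [h8] at h11
      rw [h8] at h6
      linarith
    have h14 : R.E n ≤ 3 / 2 * ζ * R.t l := by
      have : Z / 2 * R.t l ≤ 1 / 200 * ζ * R.t l := mul_le_mul_of_nonneg_right hZ2 ht.le
      have : 0 < ζ * R.t l := by positivity
      linarith
    have h15 : 2 * ζ * (3 / 4 * R.t l) ≤ 2 * ζ * ((c - 1) * R.X n) :=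
      mul_le_mul_of_nonneg_left h13 (by positivity)
    linarith
  · push Not at h
    have : R.E n = 0 := sm_eq_zero (fun j hj hQ => h j hj hQ)
    rw [this]
    have : 0 ≤ (c - 1) * R.X n := mul_nonneg (by linarith) hX0
    positivity

end Run

end Pool.Agent.OSR
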