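import Pool.Agent.OSR.X1
import Pool.Agent.OSR2.Defs

/-!
Version 2 of `safe` (with `Good2`): the statement and the proof are those of
`Pool/Agent/OSR/Safe.lean`; there `Good` is only used for `c ∈ [13/5, 21/8]`, `hb`, `0 ≤ Zi ≤ 1/5`,
`m > 0`. (Here `Zi ≤ K Z / 2 = 5000 ζ^2`.)
-/

open Finset
open scoped Classical

namespace Pool.Agent.OSR.Run

variable {m K : ℕ} {c Zi Z ν ζ ρ : ℝ} (R : Run m c Z K ν ζ) {n : ℕ}
  {σ : ℕ → Option (Fin m)} {T : ℝ}

theorem safe2 (G : Good2 m K c Zi Z ν ζ ρ) (hT : 0 ≤ T)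
    (h : ∀ i, sm n (fun j => σ j = some i) R.t ≤ T) :
    (1 - Zi) * R.mu n + max ((c - 1) * R.X n) (R.mu n) - R.E n ≤
      c * (T + sm n (fun j => σ j = none) R.p) - sm n (fun j => R.cl j ≠ 3) R.p := by
  have hm0 : (0 : ℝ) < m := by
    have := G.hm
    have h1 : 0 < m := by omega
    exact_mod_cast h1
  have hc1 := G.hc1
  have hc2 := G.hc2
  have hb := G.hb
  have hZi0 := G.hZi0
  have hZi5 : Zi ≤ 1 / 5 := by
    have h1 := G.hZi
    have h2 := G.hζ
    have h3 := G.hζ0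
    have h4 := G.hZ
    have h5 : ζ ^ 2 ≤ (1 / 10 ^ 6) ^ 2 := pow_le_pow_left₀ h3.le h2 2
    norm_num at h5 ⊢
    nlinarith
  have e1 := R.pen_sigma (n := n) (σ := σ)
  have e2 := R.pen_alg (n := n) (σ := σ)
  have e3 := R.X_eq (n := n) (σ := σ)
  have e4 := R.E_eq (n := n) (σ := σ)
  have e5 := R.hs_zero_le (n := n) (σ := σ)
  have e6 := R.hs_two (n := n) (σ := σ)
  have e7 := R.rs_three_z (n := n) (σ := σ)
  have g0 := R.rs_p_nonneg (n := n) (σ := σ) 0
  have g1 := R.rs_p_nonneg (n := n) (σ := σ) 1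
  have g2 := R.rs_p_nonneg (n := n) (σ := σ) 2
  have g3 := R.rs_z_nonneg (n := n) (σ := σ) (k := 2) (by decide)
  have g4 := R.rs_z_nonneg (n := n) (σ := σ) (k := 3) (by decide)
  have g5 : 0 ≤ R.rs n σ 3 R.t / m := div_nonneg (R.rs_t_nonneg 3) hm0.le
  have g6 : 0 ≤ R.hs n σ 0 R.t / m := div_nonneg (R.hs_t_nonneg 0) hm0.le
  have g7 : 0 ≤ R.hs n σ 2 R.t / m := div_nonneg (R.hs_t_nonneg 2) hm0.le
  have hx := R.x1_le (n := n) (σ := σ) (by linarith) hT h
  have hv : R.mu n - R.rs n σ 3 R.t / m + R.hs n σ 0 R.t / m + R.hs n σ 2 R.t / m ≤ T := by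
    have h1 := R.vol' h
    have h2 : R.mu n - R.rs n σ 3 R.t / m + R.hs n σ 0 R.t / m + R.hs n σ 2 R.t / m =
        (sm n (fun j => R.cl j = 3) R.t - R.rs n σ 3 R.t + R.hs n σ 0 R.t + R.hs n σ 2 R.t) / m := by
      unfold Run.mu
      ring
    rw [h2, div_le_iff₀ hm0]
    linarith
  rw [e1, e2]
  generalize sm n (fun j => σ j = none) R.p = D at *
  generalize sm n (fun j => R.cl j ≠ 3) R.p = D' at *
  generalize R.rs n σ 3 R.t / m = v at *
  generalize R.hs n σ 0 R.t / m = vB at *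
  generalize R.hs n σ 2 R.t / m = v3 at *
  generalize R.mu n = μ at *
  generalize R.X n = X at *
  generalize R.E n = E at *
  generalize R.hs n σ 0 R.p = H0 at *
  generalize R.hs n σ 1 R.p = x1 at *
  generalize R.hs n σ 2 R.p = H2 at *
  generalize R.hs n σ 2 R.z = H2z at *
  generalize R.rs n σ 0 R.p = D0 at *
  generalize R.rs n σ 1 R.p = d1 at *
  generalize R.rs n σ 2 R.p = D2 at *
  generalize R.rs n σ 3 R.p = D3 at *
  generalize R.rs n σ 3 R.z = D3z at *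
  generalize R.rs n σ 2 R.z = D2z at *
  have hk : 0 ≤ c - 2 + Zi := by linarith
  have hx' : x1 ≤ (c - 2 + Zi) * T := by
    have h1 := mul_le_mul_of_nonneg_left hx hk
    have h2 : (c - 2 + Zi) * ((c - 1) * x1) = x1 := by
      rw [← mul_assoc, mul_comm (c - 2 + Zi) (c - 1), hb, one_mul]
    linarith
  have hcx : c * x1 ≤ (c - 1 + Zi) * T := by
    have h1 := mul_le_mul_of_nonneg_left hx' (show (0 : ℝ) ≤ c by linarith)
    have h2 : c * ((c - 2 + Zi) * T) = (c - 1 + Zi) * T := by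
      have h3 : c * (c - 2 + Zi) = c - 1 + Zi := by linarith
      rw [← mul_assoc, h3]
    linarith
  -- the volume part
  have hcv : 2 * v ≤ 4 / 5 * c * v := by nlinarith
  have hC : (1 - Zi) * (μ - T) + 4 / 5 * (vB + v3) ≤ 4 / 5 * c * v ∧
      (2 - Zi) * (μ - T) + 4 / 5 * (vB + v3) ≤ 4 / 5 * c * v := by
    have hδ : μ - T + (vB + v3) ≤ v := by linarith
    rcases le_total 0 (μ - T) with h0 | h0
    · have h1 : (1 - Zi) * (μ - T) ≤ 2 * (μ - T) := by nlinarith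
      have h2 : (2 - Zi) * (μ - T) ≤ 2 * (μ - T) := by nlinarith
      constructor <;> linarith
    · have h1 : (1 - Zi) * (μ - T) ≤ 4 / 5 * (μ - T) := by nlinarith
      have h2 : (2 - Zi) * (μ - T) ≤ 4 / 5 * (μ - T) := by nlinarith
      constructor <;> linarith
  have hcD3 : 4 / 5 * c * v ≤ c * D3 := by
    have h1 : 4 / 5 * v ≤ D3 := by linarith
    have h2 := mul_le_mul_of_nonneg_left h1 (show (0 : ℝ) ≤ c by linarith)
    linarith
  have hD0 : 0 ≤ (c - 1) * D0 := mul_nonneg (by linarith) g0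
  have hD2 : 0 ≤ (c - 1) * D2 := mul_nonneg (by linarith) g2
  have hd1 : 0 ≤ (c - 1) * d1 := mul_nonneg (by linarith) g1
  rcases max_cases ((c - 1) * X) μ with ⟨hmx, _⟩ | ⟨hmx, _⟩
  · rw [hmx, e3]
    nlinarith [hC.1]
  · rw [hmx]
    nlinarith [hC.2]

end Pool.Agent.OSR.Run
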