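import Pool.Agent.OSR2.Params2
import Pool.Agent.OSR2.Index2
import Pool.Agent.OSR.Bridge

/-!
The theorem: there is `κ > 0` with `R(m) ≤ 1 + φ - κ (log m / m)^(2/(2+φ))` for all `m ≥ 2`.

PROOF. `params2` gives `κ`, `m₀`; for `m ≥ max m₀ 2` use `R_le` (of `OSR/Bridge`, `B = K`) with
`index_main2`. For `2 ≤ m < m₀` use `log_bound`: `R m ≤ 1 + φ - log m / (7 m)` and
`log m / (7 m) ≥ log 2 / (7 m₀) =: κ'`; as `0 ≤ log m / m ≤ 1`, the power is `≤ 1`, so the
constant `min κ κ'` works for all `m ≥ 2`.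
-/

open Finset
open scoped Classical

namespace Pool.Agent.OSR

open Real Pool.Agent.H78.Sched

theorem gap_log :
    ∃ κ : ℝ, 0 < κ ∧ ∀ m : ℕ, 2 ≤ m →
      R m ≤ 1 + goldenRatio - κ * (log m / m) ^ (2 / (2 + goldenRatio)) := by
  obtain ⟨κ, hκ, m₀, hm₀⟩ := params2
  obtain ⟨κ', hκ'⟩ : ∃ κ', κ' = log 2 / (7 * ((m₀ : ℝ) + 1)) := ⟨_, rfl⟩
  have hlog2 : 0 < log 2 := log_pos (by norm_num)
  have hm1 : (0 : ℝ) < (m₀ : ℝ) + 1 := by positivity
  have hg : (0 : ℝ) < goldenRatio := goldenRatio_pos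
  have hκ'0 : 0 < κ' := by rw [hκ']; positivity
  refine ⟨min κ κ', lt_min hκ hκ'0, fun m hm => ?_⟩
  have hmr : (2 : ℝ) ≤ m := by exact_mod_cast hm
  have hlog : log 2 ≤ log m := log_le_log (by norm_num) hmr
  have hq0 : 0 ≤ log m / m := div_nonneg (by linarith) (by linarith)
  have hpow0 : 0 ≤ (log m / m) ^ (2 / (2 + goldenRatio)) := rpow_nonneg hq0 _
  rcases le_or_gt m₀ m with h | h
  · obtain ⟨K, c, Zi, Z, ν, ζ, ρ, G, hc⟩ := hm₀ m h
    have hc0 : 0 < c := by have := G.hc1; linarith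
    have h3 : R m ≤ c := R_le (B := (K : ℝ)) (Z := Z) (ν := ν) (ζ := ζ) (by omega) hc0
      (fun Rn n σ T hT hh i => Run.index_main2 Rn G hT hh i)
    have h4 : min κ κ' * (log m / m) ^ (2 / (2 + goldenRatio)) ≤
        κ * (log m / m) ^ (2 / (2 + goldenRatio)) :=
      mul_le_mul_of_nonneg_right (min_le_left _ _) hpow0
    linarith
  · have h3 := Pool.Agent.H69.Sched.log_bound m hm
    have h4 : (log m / m) ^ (2 / (2 + goldenRatio)) ≤ 1 := by
      refine rpow_le_one hq0 ?_ (by positivity)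
      rw [div_le_one (by linarith)]
      have := log_le_sub_one_of_pos (show (0 : ℝ) < m by linarith)
      linarith
    have h5 : κ' ≤ log m / (7 * m) := by
      rw [hκ']
      have h7 : (m : ℝ) ≤ (m₀ : ℝ) + 1 := by
        have : (m : ℝ) ≤ m₀ := by exact_mod_cast h.le
        linarith
      have h8 : (0 : ℝ) < 7 * m := by linarith
      exact div_le_div₀ (by linarith) hlog h8 (by linarith)
    have h9 : min κ κ' * (log m / m) ^ (2 / (2 + goldenRatio)) ≤ κ' * 1 :=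
      mul_le_mul (min_le_right _ _) h4 hpow0 hκ'0.le
    linarith

end Pool.Agent.OSR
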