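import Pool.Agent.OSR.X1

/-!
Many long rule 1 jobs hosted by `σ`.

PROOF. Let `Q j := cl j = 1 ∧ σ j ≠ none`, `x_k = sm k Q p`, `r_k = T - (c-1) x_k`,
`S_k = {j < k | Q j ∧ (1 - lam) T ≤ t j}`, `N_k = card S_k`. Claim, by induction on `k ≤ n`:
`lam * T < c ^ N_k * r_k`. `k = 0`: `lam < 1`. Step with `¬ Q k`: nothing changes. Step with `Q k`:
by `R.h1 k`, `(c - 1) X_k + c p_k < t_k ≤ T` (`hosted_le`, `k < n`), and `x_k ≤ X_k`
(`sm_le_of_imp`), so `c p_k < r_k`, and `r_{k+1} = r_k - (c-1) p_k > r_k / c` (this is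
`c r_k - (c-1) c p_k > r_k`, i.e. `(c-1)(r_k - c p_k) > 0`), and `t_k > (c-1)(x_k + p_k) =
T - r_{k+1}`. If `r_{k+1} ≤ lam T` then `t_k ≥ (1 - lam) T`, `N_{k+1} = N_k + 1`,
`c^(N_k+1) r_{k+1} ≥ c^(N_k) r_k > lam T` (needs `r_k ≥ 0`, or just `c r_{k+1} > r_k` and
`c^N_k > 0`). If `r_{k+1} > lam T`, then `c^(N_{k+1}) r_{k+1} ≥ r_{k+1} > lam T` because
`c ^ N ≥ 1` and `r_{k+1} > 0`.
At `k = n`: if `N_n < K` then `c^(N_n) r_n ≤ c^K r_n ≤ lam T` (`r_n > 0` by the claim, `hr`),
contradiction. Take `S = S_n`.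
-/

open Finset
open scoped Classical

namespace Pool.Agent.OSR.Run

variable {m : ℕ} {c Z B ν ζ : ℝ} (R : Run m c Z B ν ζ) {n : ℕ} {σ : ℕ → Option (Fin m)} {T : ℝ}

theorem many (hc : 1 < c) (hT : 0 < T) (h : ∀ i, sm n (fun j => σ j = some i) R.t ≤ T)
    {lam : ℝ} (hl0 : 0 < lam) (hl1 : lam < 1) (K : ℕ)
    (hr : c ^ K * (T - (c - 1) * R.hs n σ 1 R.p) ≤ lam * T) :
    ∃ S : Finset ℕ, K ≤ S.card ∧
      ∀ l ∈ S, l < n ∧ R.cl l = 1 ∧ σ l ≠ none ∧ (1 - lam) * T ≤ R.t l := by
  set Q : ℕ → Prop := fun j => R.cl j = 1 ∧ σ j ≠ none with hQ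
  have key : ∀ k, k ≤ n → lam * T < c ^ ((range k).filter fun j => Q j ∧ (1 - lam) * T ≤ R.t j).card *
      (T - (c - 1) * sm k Q R.p) := by
    intro k
    induction k with
    | zero =>
      intro _
      rw [sm_zero]
      simp only [range_zero, filter_empty, card_empty, pow_zero]
      nlinarith
    | succ k ih =>
      intro hk
      have ih' := ih (by omega)
      by_cases hq : Q k
      · have e1 := R.h1 k hq.1
        have e2 : R.t k ≤ T := hosted_le (fun j => (R.ht j).le) h (by omega : k < n) hq.2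
        have e3 : sm k Q R.p ≤ sm k (fun j => R.cl j = 1) R.p :=
          sm_le_of_imp (fun j _ hq => hq.1) (fun j _ _ => (R.hp j).le)
        have e4 := R.hp k
        have e5 : (c - 1) * sm k Q R.p ≤ (c - 1) * sm k (fun j => R.cl j = 1) R.p :=
          mul_le_mul_of_nonneg_left e3 (by linarith)
        rw [sm_succ, if_pos hq]
        generalize hx : sm k Q R.p = x at *
        have e6 : c * R.p k < T - (c - 1) * x := by linarith
        have e7 : T - (c - 1) * x < c * (T - (c - 1) * (x + R.p k)) := by nlinarith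
        have hcp : (0 : ℝ) < c ^ ((range k).filter fun j => Q j ∧ (1 - lam) * T ≤ R.t j).card := by
          positivity
        by_cases h8 : T - (c - 1) * (x + R.p k) ≤ lam * T
        · have e9 : (1 - lam) * T ≤ R.t k := by nlinarith
          rw [range_add_one, filter_insert, if_pos ⟨hq, e9⟩, card_insert_of_notMem (by simp),
            pow_succ]
          calc lam * T < _ := ih'
            _ < _ := by
              rw [mul_assoc]
              exact mul_lt_mul_of_pos_left e7 hcp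
        · rw [not_le] at h8
          have h9 : 0 < lam * T := by positivity
          have h10 : (1 : ℝ) ≤ c ^ ((range (k + 1)).filter fun j => Q j ∧ (1 - lam) * T ≤ R.t j).card :=
            one_le_pow₀ hc.le
          nlinarith
      · rw [sm_succ, if_neg hq, add_zero, range_add_one, filter_insert, if_neg (fun hh => hq hh.1)]
        exact ih'
  have hn := key n le_rfl
  refine ⟨(range n).filter fun j => Q j ∧ (1 - lam) * T ≤ R.t j, ?_, ?_⟩
  · by_contra hlt
    rw [not_le] at hlt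
    have hr' : c ^ K * (T - (c - 1) * sm n Q R.p) ≤ lam * T := hr
    have h0 : 0 < T - (c - 1) * sm n Q R.p := by
      by_contra hneg
      rw [not_lt] at hneg
      have h1 : (0 : ℝ) < c ^ ((range n).filter fun j => Q j ∧ (1 - lam) * T ≤ R.t j).card := by
        positivity
      have h9 : 0 < lam * T := by positivity
      nlinarith
    have h1 : c ^ ((range n).filter fun j => Q j ∧ (1 - lam) * T ≤ R.t j).card ≤ c ^ K :=
      pow_le_pow_right₀ hc.le hlt.le
    nlinarith
  · intro l hl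
    rw [mem_filter, mem_range] at hl
    exact ⟨hl.1, hl.2.1.1, hl.2.1.2, hl.2.2⟩

end Pool.Agent.OSR.Run
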