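import Pool.Agent.OSR2.Defs
import Pool.Agent.H69.Sched.LogMain

/-!
The choice of the parameters, version 2.

PROOF. `φ = goldenRatio ∈ (1.618033, 1.618034)`, `L = log m`, `e₀ = 1/(2+φ) ∈ (0.276, 0.277)`. Let
`κ₀ ∈ (0, 1)` be a small constant (see the end) and `ζ = κ₀ (L/m)^e₀`,
`K = ⌊log (1/(660 ζ)) / log (8/3)⌋₊`, `Z = 10^4 ζ^2 / K`, `g = 10^4 ζ^2 / 3`,
`c = 1 + φ - g`, `Zi` from `exists_Z` (`0 ≤ Zi ≤ 7/5 g ≤ 10^4 ζ^2 / 2`,
`1 = (c-1)(c-2+Zi)`), `ν = φ - 6/K`, `ρ = 1 - 1/K`. `κ = 10^4 κ₀^2/3`; then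
`c = 1 + φ - κ (L/m)^(2/(2+φ))`. For `m` large:
(a) `ζ ≤ m^(-1/4)` (as `L^e₀ ≤ m^(e₀ - 1/4)`), and `ζ ≥ 1/m`.
(b) `log (1/(660 ζ)) ≥ L/4 - log 660 ≥ L/5`, and `log (8/3) ≤ 1`, so `K ≥ L/5 - 1 ≥ L/6`, `K ≥ 10`;
`hKζ` holds since `K log (8/3) ≤ log (1/(660 ζ))`.
(c) `hρ2`: `c ρ (1 - ν/(2K)) ≥ (1 + φ - g)(1 - 1/K)(1 - φ/(2K)) ≥ (1 + φ - g)(1 - 1.81/K)
≥ 1 + φ - 4.74/K - g ≥ 1 + φ - 6/K = 1 + ν` since `K g ≤ 1.26` for large `m`.
(d) `hρ3`: Bernoulli, `(1 - lam)^(1+ν) ≥ 1 - (1+ν) lam ≥ 1 - 2.62 lam`, and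
`lam = 50 ζ + 25 √(2ζ) ≤ 86 m^(-1/8)`, `K ≤ 2 L`, so `2.62 lam ≤ 1/K` for large `m`
(`K ≤ 2 L`: `660 ζ ≥ 1/m`, `log (8/3) ≥ 1/2`).
(e) `hmζ`: `7 ζ m ≥ 7 κ₀ m^(1-e₀) ≥ 2`. `hν`: `g ≤ 6/K`. `hζ`: clear for large `m`.
(f) `hF`: the left side is `≤ (Z/2) (8 K Z/ζ)^ν = (5000 ζ^2/K) (8 * 10^4 ζ)^ν`, and
`(8 * 10^4 ζ)^ν ≤ (8 * 10^4)^φ ζ^ν = (8 * 10^4)^φ ζ^φ ζ^(-6/K)`, with
`ζ^(-6/K) = exp (6 log(1/ζ)/K) ≤ exp (6 L/K) ≤ exp 36`. So the left side is
`≤ (5000/K) (8 * 10^4)^φ e^36 ζ^(2+φ) = (5000/K) (8 * 10^4)^φ e^36 κ₀^(2+φ) L/m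
≤ 30000 (8 * 10^4)^φ e^36 κ₀^(2+φ) / m ≤ 1/(26.25 m) ≤ 1/(10 c m)` if `κ₀` is small (`κ₀ ≤ 1` and
`κ₀^(2+φ) ≤ κ₀ ≤ 1/(26.25 * 30000 (8 * 10^4)^φ e^36)`).
It is enough to prove everything for `m ≥ m₀` with some `m₀`: use `Filter.eventually_atTop` and
`isLittleO_log_id_atTop`, `Real.isLittleO_log_rpow_atTop`, `tendsto_rpow_atTop`.
-/

open Finset
open scoped Classical

namespace Pool.Agent.OSR

open Real

private theorem p2_F {m K : ℕ} {c Z ν ζ : ℝ} (hm : 0 < (m : ℝ)) (hK : 0 < (K : ℝ)) (hc0 : 0 < c)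
    (hc2 : c ≤ 21 / 8) (hν : 0 ≤ ν) (hζ : 0 < ζ) (hZ : K * Z = 10 ^ 4 * ζ ^ 2)
    (h : 5000 * ζ ^ 2 / K * (8 * 10 ^ 4 * ζ) ^ ν ≤ 1 / (105 / 4 * m)) :
    Z / 2 * (K * Z / (K * Z + ζ / 8)) ^ ν ≤ 1 / (10 * c * m) := by
  have hZ' : Z = 10 ^ 4 * ζ ^ 2 / K := by
    rw [← hZ]
    field_simp
  have h1 : K * Z / (K * Z + ζ / 8) ≤ 8 * 10 ^ 4 * ζ := by
    rw [div_le_iff₀ (by rw [hZ]; positivity), hZ]
    have h2 : 10 ^ 4 * ζ ^ 2 = 8 * 10 ^ 4 * ζ * (ζ / 8) := by ring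
    have h3 : 0 ≤ 8 * 10 ^ 4 * ζ * (10 ^ 4 * ζ ^ 2) := by positivity
    nlinarith
  have h2 : (K * Z / (K * Z + ζ / 8)) ^ ν ≤ (8 * 10 ^ 4 * ζ) ^ ν :=
    Real.rpow_le_rpow (by rw [hZ]; positivity) h1 hν
  have h3 : Z / 2 = 5000 * ζ ^ 2 / K := by
    rw [hZ']
    ring
  calc Z / 2 * (K * Z / (K * Z + ζ / 8)) ^ ν
      ≤ 5000 * ζ ^ 2 / K * (8 * 10 ^ 4 * ζ) ^ ν := by
        rw [h3]
        exact mul_le_mul_of_nonneg_left h2 (by positivity)
    _ ≤ 1 / (105 / 4 * m) := h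
    _ ≤ 1 / (10 * c * m) := by
        apply one_div_le_one_div_of_le (by positivity)
        apply mul_le_mul_of_nonneg_right _ hm.le
        linarith

private theorem p2_good {m K : ℕ} {ζ : ℝ} (hm : 10 ≤ m) (hK : 10 ≤ K) (hζ0 : 0 < ζ)
    (hζ : ζ ≤ 1 / 10 ^ 6) (hKζ : (8 / 3) ^ K * (660 * ζ) ≤ 1)
    (hlam : K * (50 * ζ + 25 * √(2 * ζ)) ≤ 38 / 100) (hmζ : 2 ≤ 7 * ζ * m)
    (hF : 5000 * ζ ^ 2 / K * (8 * 10 ^ 4 * ζ) ^ (goldenRatio - 6 / K) ≤ 1 / (105 / 4 * m)) :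
    ∃ Zi : ℝ, Good2 m K (1 + goldenRatio - 10 ^ 4 * ζ ^ 2 / 3) Zi (10 ^ 4 * ζ ^ 2 / K)
      (goldenRatio - 6 / K) ζ (1 - 1 / K) := by
  have hφ1 := Pool.Agent.H69.Sched.phi_gt
  have hφ2 := Pool.Agent.H69.Sched.phi_lt
  have hφ1' : 1618033 / 1000000 < goldenRatio := by norm_num at hφ1 ⊢; linarith
  have hφ2' : goldenRatio < 1618034 / 1000000 := by norm_num at hφ2 ⊢; linarith
  have hm0 : (0 : ℝ) < m := by
    have : 0 < m := by omega
    exact_mod_cast this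
  have hKr : (10 : ℝ) ≤ K := by exact_mod_cast hK
  have hK0 : (0 : ℝ) < K := by linarith
  have hi0 : 0 < 1 / (K : ℝ) := by positivity
  have hi1 : 1 / (K : ℝ) ≤ 1 / 10 := one_div_le_one_div_of_le (by norm_num) hKr
  have h6 : 6 / (K : ℝ) = 6 * (1 / K) := by ring
  set i : ℝ := 1 / (K : ℝ) with hi
  have hKi : (K : ℝ) * i = 1 := by
    rw [hi]
    field_simp
  have hs0 : 0 ≤ √(2 * ζ) := Real.sqrt_nonneg _
  set lam : ℝ := 50 * ζ + 25 * √(2 * ζ) with hlamd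
  have hl0 : 0 ≤ lam := by positivity
  have hl1 : lam ≤ 38 / 100 * i := by
    have : lam = K * lam * i := by
      rw [mul_comm (K : ℝ) lam, mul_assoc, hKi, mul_one]
    rw [this]
    exact mul_le_mul_of_nonneg_right hlam hi0.le
  have hζl : 50 * ζ ≤ lam := by
    rw [hlamd]
    linarith
  have hg0 : 0 < 10 ^ 4 * ζ ^ 2 / 3 := by positivity
  have hg1 : 10 ^ 4 * ζ ^ 2 / 3 ≤ 1 / 100 * ζ := by
    have : ζ ^ 2 ≤ 1 / 10 ^ 6 * ζ := by
      rw [sq]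
      exact mul_le_mul_of_nonneg_right hζ hζ0.le
    norm_num at this ⊢
    linarith
  obtain ⟨Zi, hZi0, hZi1, hZi⟩ := Pool.Agent.H69.Sched.exists_Z hg0 (by
    norm_num at hζ hg1 ⊢
    linarith)
  set g : ℝ := 10 ^ 4 * ζ ^ 2 / 3 with hg
  have hgi : g ≤ 1 / 10 * i := by
    norm_num at hg1 hl1 ⊢
    linarith
  have hg2 : g ≤ 1 / 10 ^ 8 := by
    norm_num at hζ hg1 ⊢
    linarith
  have hZZ : (K : ℝ) * (10 ^ 4 * ζ ^ 2 / K) = 10 ^ 4 * ζ ^ 2 := by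
    field_simp
  have hν1 : 1 ≤ goldenRatio - 6 / K := by
    rw [h6]
    linarith
  have hc1 : 13 / 5 ≤ 1 + goldenRatio - g := by
    norm_num at hg2 ⊢
    linarith
  have hc2 : 1 + goldenRatio - g ≤ 21 / 8 := by linarith
  refine ⟨Zi, ?_⟩
  constructor
  · exact hm
  · omega
  · exact hc1
  · exact hc2
  · exact hZi.symm
  · exact hZi0
  · rw [hZZ]
    have h1 : 7 / 5 * g = 7 / 15 * (10 ^ 4 * ζ ^ 2) := by rw [hg]; ring
    have h2 : 0 < 10 ^ 4 * ζ ^ 2 := by positivity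
    linarith
  · exact hζ0
  · exact hζ
  · exact hZZ
  · exact hKζ
  · exact hν1
  · rw [h6]
    linarith
  · linarith
  · have h3 : 13 / 5 * (9 / 10) ≤ (1 + goldenRatio - g) * (1 - i) :=
      mul_le_mul hc1 (by linarith) (by norm_num) (by linarith)
    norm_num at h3 ⊢
    linarith
  · -- second condition on `ρ`
    have h3 : (goldenRatio - 6 / K) / (2 * K) = (goldenRatio - 6 * i) * i / 2 := by
      rw [h6, hi]
      field_simp
    rw [h3, h6]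
    have h4 : 1 - 1810 / 1000 * i ≤ (1 - i) * (1 - (goldenRatio - 6 * i) * i / 2) := by
      have h5 : (1 - i) * (1 - (goldenRatio - 6 * i) * i / 2) =
          1 - i - goldenRatio * i / 2 + 3 * i ^ 2 + (goldenRatio - 6 * i) * i ^ 2 / 2 := by ring
      have h7 : 0 ≤ 3 * i ^ 2 := by positivity
      have h8 : 0 ≤ (goldenRatio - 6 * i) * i ^ 2 / 2 := by
        have : 0 ≤ goldenRatio - 6 * i := by linarith
        positivity
      have h9 : goldenRatio * i ≤ 1618034 / 1000000 * i :=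
        mul_le_mul_of_nonneg_right hφ2'.le hi0.le
      rw [h5]
      linarith
    have h5 : (1 + goldenRatio - g) * (1 - 1810 / 1000 * i) ≤
        (1 + goldenRatio - g) * ((1 - i) * (1 - (goldenRatio - 6 * i) * i / 2)) :=
      mul_le_mul_of_nonneg_left h4 (by linarith)
    have h7 : 1 + (goldenRatio - 6 * i) ≤ (1 + goldenRatio - g) * (1 - 1810 / 1000 * i) := by
      have h8 : (1 + goldenRatio) * (1810 / 1000 * i) ≤ 2618034 / 1000000 * (1810 / 1000 * i) :=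
        mul_le_mul_of_nonneg_right (by linarith) (by positivity)
      have h9 : 0 ≤ g * (1810 / 1000 * i) := by positivity
      have h10 : (1 + goldenRatio - g) * (1 - 1810 / 1000 * i) =
          1 + goldenRatio - g - (1 + goldenRatio) * (1810 / 1000 * i) + g * (1810 / 1000 * i) := by
        ring
      rw [h10]
      norm_num at h8 h9 hgi ⊢
      linarith
    calc 1 + (goldenRatio - 6 * i) ≤ (1 + goldenRatio - g) * (1 - 1810 / 1000 * i) := h7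
      _ ≤ (1 + goldenRatio - g) * ((1 - i) * (1 - (goldenRatio - 6 * i) * i / 2)) := h5
      _ = (1 + goldenRatio - g) * (1 - i) * (1 - (goldenRatio - 6 * i) * i / 2) := by ring
  · -- third condition on `ρ`
    have hb := one_add_mul_self_le_rpow_one_add (s := -lam) (by linarith)
      (p := 1 + (goldenRatio - 6 / K)) (by linarith)
    have h3 : (1 + (goldenRatio - 6 / K)) * lam ≤ 2618034 / 1000000 * lam := by
      apply mul_le_mul_of_nonneg_right _ hl0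
      rw [h6]
      linarith
    have h4 : (1 - lam) ^ (1 + (goldenRatio - 6 / (K : ℝ))) =
        (1 + -lam) ^ (1 + (goldenRatio - 6 / (K : ℝ))) := by rw [← sub_eq_add_neg]
    rw [h4]
    refine le_trans ?_ hb
    norm_num at h3 hl1 ⊢
    linarith
  · exact hmζ
  · exact p2_F hm0 hK0 (by linarith) hc2 (by linarith) hζ0 hZZ hF

theorem params2 :
    ∃ κ : ℝ, 0 < κ ∧ ∃ m₀ : ℕ, ∀ m : ℕ, m₀ ≤ m →
      ∃ (K : ℕ) (c Zi Z ν ζ ρ : ℝ), Good2 m K c Zi Z ν ζ ρ ∧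
        c = 1 + goldenRatio - κ * (log m / m) ^ (2 / (2 + goldenRatio)) := by
  have hφ1 := Pool.Agent.H69.Sched.phi_gt
  have hφ2 := Pool.Agent.H69.Sched.phi_lt
  have hφ1' : 1618033 / 1000000 < goldenRatio := by norm_num at hφ1 ⊢; linarith
  have hφ2' : goldenRatio < 1618034 / 1000000 := by norm_num at hφ2 ⊢; linarith
  set A : ℝ := (8 * 10 ^ 4 : ℝ) ^ goldenRatio * exp 36 with hA
  have hA1 : 1 ≤ A := by
    have h1 : (1 : ℝ) ≤ (8 * 10 ^ 4 : ℝ) ^ goldenRatio :=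
      Real.one_le_rpow (by norm_num) (by linarith)
    have h2 : (1 : ℝ) ≤ exp 36 := Real.one_le_exp (by norm_num)
    nlinarith
  set κ₀ : ℝ := 1 / (105 / 4 * 30000 * A) with hκ₀
  have hκ₀0 : 0 < κ₀ := by positivity
  have hκ₀A : A * κ₀ = 1 / (105 / 4 * 30000) := by
    rw [hκ₀]
    field_simp
  have hκ₀1 : κ₀ ≤ 1 := by
    have h1 : κ₀ ≤ A * κ₀ := by nlinarith
    rw [hκ₀A] at h1
    norm_num at h1 ⊢
    linarith
  have h2φ : 0 < 2 + goldenRatio := by linarith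
  set e₀ : ℝ := 1 / (2 + goldenRatio) with he₀
  have he₀0 : 0 < e₀ := by positivity
  have he₀1 : e₀ * (2 + goldenRatio) = 1 := by
    rw [he₀]
    field_simp
  have he₀2 : e₀ ≤ 1 / 3 := by
    rw [he₀]
    exact one_div_le_one_div_of_le (by norm_num) (by linarith)
  -- the eventual conditions
  have evA : ∀ᶠ m : ℕ in Filter.atTop, 12 * (log 660 + 1) + 60 ≤ log m :=
    (Real.tendsto_log_atTop.comp tendsto_natCast_atTop_atTop).eventually_ge_atTop _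
  have evB : ∀ᶠ m : ℕ in Filter.atTop, log m ≤ (m : ℝ) ^ ((2 - goldenRatio) / 4) := by
    have h1 := (isLittleO_log_rpow_atTop (r := (2 - goldenRatio) / 4) (by linarith)).bound
      (c := 1) one_pos
    have h2 := tendsto_natCast_atTop_atTop (R := ℝ) |>.eventually h1
    filter_upwards [h2] with m hm
    rw [Real.norm_eq_abs, Real.norm_eq_abs, one_mul,
      abs_of_nonneg (Real.rpow_nonneg (Nat.cast_nonneg m) _)] at hm
    exact (le_abs_self _).trans hm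
  have evC : ∀ᶠ m : ℕ in Filter.atTop, 1 / κ₀ ≤ (m : ℝ) ^ (1 - e₀) :=
    ((tendsto_rpow_atTop (by linarith)).comp tendsto_natCast_atTop_atTop).eventually_ge_atTop _
  have evD : ∀ᶠ m : ℕ in Filter.atTop, 500 * log m ≤ (m : ℝ) ^ ((1 : ℝ) / 8) := by
    have h1 := (isLittleO_log_rpow_atTop (r := 1 / 8) (by norm_num)).bound
      (c := 1 / 500) (by norm_num)
    have h2 := tendsto_natCast_atTop_atTop (R := ℝ) |>.eventually h1
    filter_upwards [h2] with m hm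
    rw [Real.norm_eq_abs, Real.norm_eq_abs,
      abs_of_nonneg (Real.rpow_nonneg (Nat.cast_nonneg m) _)] at hm
    have := (le_abs_self _).trans hm
    linarith
  obtain ⟨m₁, hm₁⟩ := Filter.eventually_atTop.1 (evA.and (evB.and (evC.and evD)))
  refine ⟨10 ^ 4 * κ₀ ^ 2 / 3, by positivity, max 10 m₁, fun m hm => ?_⟩
  have hm10 : 10 ≤ m := le_trans (le_max_left _ _) hm
  obtain ⟨hA', hB', hC', hD'⟩ := hm₁ m (le_trans (le_max_right _ _) hm)
  have hm0 : (0 : ℝ) < m := by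
    have : 0 < m := by omega
    exact_mod_cast this
  have hm1 : (1 : ℝ) ≤ m := by
    have : 1 ≤ m := by omega
    exact_mod_cast this
  have hlog660 : 0 ≤ log 660 := Real.log_nonneg (by norm_num)
  set L : ℝ := log m with hL
  have hL60 : 60 ≤ L := by linarith
  have hq0 : 0 < L / m := by positivity
  set q : ℝ := L / m with hq
  set ζ : ℝ := κ₀ * q ^ e₀ with hζ
  have hqe0 : 0 < q ^ e₀ := Real.rpow_pos_of_pos hq0 _
  have hζ0 : 0 < ζ := by positivity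
  -- (2)
  set u : ℝ := (m : ℝ) ^ (-((1 : ℝ) / 8)) with hu
  have hu0 : 0 < u := Real.rpow_pos_of_pos hm0 _
  have hu2 : u ^ 2 = (m : ℝ) ^ (-((1 : ℝ) / 4)) := by
    rw [hu, ← Real.rpow_natCast, ← Real.rpow_mul hm0.le]
    congr 1
    push_cast
    ring
  have hζu : ζ ≤ u ^ 2 := by
    have h1 : q ≤ (m : ℝ) ^ (-((2 + goldenRatio) / 4)) := by
      rw [hq, div_le_iff₀ hm0]
      have h2 : (m : ℝ) ^ (-((2 + goldenRatio) / 4)) * m = (m : ℝ) ^ ((2 - goldenRatio) / 4) := by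
        have h3 : (m : ℝ) ^ ((2 - goldenRatio) / 4) =
            (m : ℝ) ^ (-((2 + goldenRatio) / 4)) * (m : ℝ) ^ (1 : ℝ) := by
          rw [← Real.rpow_add hm0]
          congr 1
          ring
        rw [h3, Real.rpow_one]
      rw [h2]
      exact hB'
    have h2 : q ^ e₀ ≤ ((m : ℝ) ^ (-((2 + goldenRatio) / 4))) ^ e₀ :=
      Real.rpow_le_rpow hq0.le h1 he₀0.le
    have h3 : ((m : ℝ) ^ (-((2 + goldenRatio) / 4))) ^ e₀ = u ^ 2 := by
      rw [hu2, ← Real.rpow_mul hm0.le]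
      congr 1
      have : -((2 + goldenRatio) / 4) * e₀ = -(e₀ * (2 + goldenRatio)) / 4 := by ring
      rw [this, he₀1]
      ring
    rw [h3] at h2
    calc ζ ≤ 1 * q ^ e₀ := mul_le_mul_of_nonneg_right hκ₀1 hqe0.le
      _ = q ^ e₀ := one_mul _
      _ ≤ u ^ 2 := h2
  have hD2 : 500 * L * u ≤ 1 := by
    have h1 : (m : ℝ) ^ ((1 : ℝ) / 8) * u = 1 := by
      rw [hu, ← Real.rpow_add hm0, add_neg_cancel, Real.rpow_zero]
    calc 500 * L * u ≤ (m : ℝ) ^ ((1 : ℝ) / 8) * u := mul_le_mul_of_nonneg_right hD' hu0.le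
      _ = 1 := h1
  have hu1 : u ≤ 1 / 30000 := by
    have h1 : 500 * 60 * u ≤ 500 * L * u := by
      apply mul_le_mul_of_nonneg_right _ hu0.le
      linarith
    norm_num at h1 ⊢
    linarith
  have hζ6 : ζ ≤ 1 / 10 ^ 6 := by
    have h1 : u ^ 2 ≤ (1 / 30000) ^ 2 := pow_le_pow_left₀ hu0.le hu1 2
    norm_num at h1 ⊢
    linarith
  -- (3)
  have hζm : 1 ≤ ζ * m := by
    have h1 : (1 : ℝ) / m ≤ q := by
      rw [hq]
      apply div_le_div_of_nonneg_right _ hm0.le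
      linarith
    have h2 : ((1 : ℝ) / m) ^ e₀ ≤ q ^ e₀ := Real.rpow_le_rpow (by positivity) h1 he₀0.le
    have h3 : ((1 : ℝ) / m) ^ e₀ * m = (m : ℝ) ^ (1 - e₀) := by
      have h4 : (m : ℝ) ^ (1 - e₀) = (m : ℝ) ^ (-e₀) * (m : ℝ) ^ (1 : ℝ) := by
        rw [← Real.rpow_add hm0]
        congr 1
        ring
      rw [h4, Real.rpow_one, Real.rpow_neg hm0.le, Real.div_rpow zero_le_one hm0.le,
        Real.one_rpow, one_div]
    rw [div_le_iff₀ hκ₀0] at hC'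
    calc 1 ≤ (m : ℝ) ^ (1 - e₀) * κ₀ := hC'
      _ = κ₀ * (((1 : ℝ) / m) ^ e₀ * m) := by rw [h3]; ring
      _ ≤ κ₀ * (q ^ e₀ * m) := by
          apply mul_le_mul_of_nonneg_left _ hκ₀0.le
          exact mul_le_mul_of_nonneg_right h2 hm0.le
      _ = ζ * m := by rw [hζ]; ring
  -- logarithms
  have hlz1 : log ζ ≤ -(L / 4) := by
    have h1 := Real.log_le_log hζ0 hζu
    rw [hu2, Real.log_rpow hm0] at h1
    linarith
  have hlz2 : -L ≤ log ζ := by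
    have h1 : log 1 ≤ log (ζ * m) := Real.log_le_log one_pos hζm
    rw [Real.log_one, Real.log_mul hζ0.ne' hm0.ne'] at h1
    linarith
  set y : ℝ := log (1 / (660 * ζ)) with hy
  have hye : y = -(log 660 + log ζ) := by
    rw [hy, one_div, Real.log_inv, Real.log_mul (by norm_num) hζ0.ne']
  have hy1 : L / 4 - log 660 ≤ y := by rw [hye]; linarith
  have hy2 : y ≤ L := by rw [hye]; linarith
  have hy0 : 0 ≤ y := by linarith
  set b : ℝ := log (8 / 3) with hb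
  have hb1 : b ≤ 1 := by
    rw [hb, Real.log_le_iff_le_exp (by norm_num)]
    have := Real.exp_one_gt_d9
    norm_num at this ⊢
    linarith
  have hb2 : 1 / 2 ≤ b := by
    have := Real.one_sub_inv_le_log_of_pos (x := 8 / 3) (by norm_num)
    rw [← hb] at this
    norm_num at this ⊢
    linarith
  have hb0 : 0 < b := by linarith
  set K : ℕ := ⌊y / b⌋₊ with hK
  have hx0 : 0 ≤ y / b := by positivity
  have hKle : (K : ℝ) ≤ y / b := Nat.floor_le hx0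
  have hKb : (K : ℝ) * b ≤ y := by rwa [le_div_iff₀ hb0] at hKle
  have hKge : y / b - 1 < K := Nat.sub_one_lt_floor _
  have hyb : y ≤ y / b := by
    rw [le_div_iff₀ hb0]
    nlinarith
  have hK6 : L ≤ 6 * K := by linarith
  have hK2 : (K : ℝ) ≤ 2 * L := by nlinarith
  have hK10r : (10 : ℝ) ≤ K := by linarith
  have hK10 : 10 ≤ K := by exact_mod_cast hK10r
  have hK0 : (0 : ℝ) < K := by linarith
  have hKζ : (8 / 3) ^ K * (660 * ζ) ≤ 1 := by
    have h1 : log ((8 / 3 : ℝ) ^ K) ≤ log (1 / (660 * ζ)) := by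
      rw [Real.log_pow]
      exact hKb
    rw [Real.log_le_log_iff (by positivity) (by positivity), le_div_iff₀ (by positivity)] at h1
    exact h1
  have hlam : K * (50 * ζ + 25 * √(2 * ζ)) ≤ 38 / 100 := by
    have h1 : √(2 * ζ) ≤ 3 / 2 * u := by
      rw [Real.sqrt_le_left (by positivity)]
      have : (3 / 2 * u) ^ 2 = 9 / 4 * u ^ 2 := by ring
      rw [this]
      have : 0 ≤ u ^ 2 := by positivity
      linarith
    have h2 : 50 * ζ + 25 * √(2 * ζ) ≤ 175 / 2 * u := by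
      have h3 : u ^ 2 ≤ u := by nlinarith
      linarith
    calc K * (50 * ζ + 25 * √(2 * ζ)) ≤ K * (175 / 2 * u) :=
          mul_le_mul_of_nonneg_left h2 hK0.le
      _ ≤ 2 * L * (175 / 2 * u) := mul_le_mul_of_nonneg_right hK2 (by positivity)
      _ = 175 / 500 * (500 * L * u) := by ring
      _ ≤ 175 / 500 * 1 := mul_le_mul_of_nonneg_left hD2 (by norm_num)
      _ ≤ 38 / 100 := by norm_num
  have hmζ : 2 ≤ 7 * ζ * m := by
    have : 7 * ζ * m = 7 * (ζ * m) := by ring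
    rw [this]
    linarith
  -- the last condition
  have hF : 5000 * ζ ^ 2 / K * (8 * 10 ^ 4 * ζ) ^ (goldenRatio - 6 / K) ≤ 1 / (105 / 4 * m) := by
    have h6 : 0 ≤ 6 / (K : ℝ) := by positivity
    have h1 : (8 * 10 ^ 4 * ζ) ^ (goldenRatio - 6 / (K : ℝ)) =
        (8 * 10 ^ 4 : ℝ) ^ (goldenRatio - 6 / (K : ℝ)) * ζ ^ (goldenRatio - 6 / (K : ℝ)) :=
      Real.mul_rpow (by positivity) hζ0.le
    have h2 : (8 * 10 ^ 4 : ℝ) ^ (goldenRatio - 6 / (K : ℝ)) ≤ (8 * 10 ^ 4 : ℝ) ^ goldenRatio :=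
      Real.rpow_le_rpow_of_exponent_le (by norm_num) (by linarith)
    have h3 : ζ ^ (goldenRatio - 6 / (K : ℝ)) = ζ ^ goldenRatio * ζ ^ (-(6 / (K : ℝ))) := by
      rw [← Real.rpow_add hζ0]
      congr 1
    have h4 : ζ ^ (-(6 / (K : ℝ))) ≤ exp 36 := by
      rw [Real.rpow_def_of_pos hζ0, Real.exp_le_exp]
      have h5 : log ζ * -(6 / (K : ℝ)) = -log ζ * (6 / K) := by ring
      rw [h5]
      calc -log ζ * (6 / (K : ℝ)) ≤ L * (6 / K) :=
            mul_le_mul_of_nonneg_right (by linarith) h6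
        _ ≤ 6 * K * (6 / K) := mul_le_mul_of_nonneg_right hK6 h6
        _ = 36 := by
            field_simp
            norm_num
    have h5 : ζ ^ 2 * ζ ^ goldenRatio = κ₀ ^ (2 + goldenRatio) * q := by
      have h7 : ζ ^ 2 * ζ ^ goldenRatio = ζ ^ (2 + goldenRatio) := by
        rw [Real.rpow_add hζ0]
        norm_num
      rw [h7, hζ, Real.mul_rpow hκ₀0.le hqe0.le, ← Real.rpow_mul hq0.le, he₀1, Real.rpow_one]
    have h7 : κ₀ ^ (2 + goldenRatio) ≤ κ₀ := by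
      have := Real.rpow_le_rpow_of_exponent_ge hκ₀0 hκ₀1 (show (1 : ℝ) ≤ 2 + goldenRatio by linarith)
      rwa [Real.rpow_one] at this
    have hζφ : 0 < ζ ^ goldenRatio := Real.rpow_pos_of_pos hζ0 _
    have h8 : (8 * 10 ^ 4 * ζ) ^ (goldenRatio - 6 / (K : ℝ)) ≤ A * ζ ^ goldenRatio := by
      rw [h1, h3, hA]
      have h9 : (8 * 10 ^ 4 : ℝ) ^ goldenRatio * exp 36 * ζ ^ goldenRatio =
          (8 * 10 ^ 4 : ℝ) ^ goldenRatio * (ζ ^ goldenRatio * exp 36) := by ring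
      rw [h9]
      apply mul_le_mul h2 (mul_le_mul_of_nonneg_left h4 hζφ.le)
      · have : 0 < ζ ^ (-(6 / (K : ℝ))) := Real.rpow_pos_of_pos hζ0 _
        positivity
      · positivity
    calc 5000 * ζ ^ 2 / K * (8 * 10 ^ 4 * ζ) ^ (goldenRatio - 6 / K)
        ≤ 5000 * ζ ^ 2 / K * (A * ζ ^ goldenRatio) :=
          mul_le_mul_of_nonneg_left h8 (by positivity)
      _ = 5000 * A / K * (ζ ^ 2 * ζ ^ goldenRatio) := by ring
      _ = 5000 * A / K * (κ₀ ^ (2 + goldenRatio) * q) := by rw [h5]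
      _ ≤ 5000 * A / K * (κ₀ * q) := by
          apply mul_le_mul_of_nonneg_left _ (by positivity)
          exact mul_le_mul_of_nonneg_right h7 hq0.le
      _ = 5000 * (A * κ₀) * (1 / m) * (L / K) := by
          rw [hq]
          ring
      _ ≤ 5000 * (A * κ₀) * (1 / m) * 6 := by
          apply mul_le_mul_of_nonneg_left _ (by positivity)
          rw [div_le_iff₀ hK0]
          exact hK6
      _ = 1 / (105 / 4 * m) := by
          rw [hκ₀A]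
          field_simp
          norm_num
  obtain ⟨Zi, hG⟩ := p2_good hm10 hK10 hζ0 hζ6 hKζ hlam hmζ hF
  refine ⟨K, _, Zi, _, _, ζ, _, hG, ?_⟩
  have h3 : ζ ^ 2 = κ₀ ^ 2 * q ^ (2 / (2 + goldenRatio)) := by
    rw [hζ, mul_pow]
    congr 1
    rw [← Real.rpow_natCast (q ^ e₀) 2, ← Real.rpow_mul hq0.le]
    congr 1
    rw [he₀]
    push_cast
    ring
  rw [h3]
  ring

end Pool.Agent.OSR
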