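import Pool.Agent.OSR2.Crit2
import Pool.Agent.OSR2.CaseI2
import Pool.Agent.OSR2.CaseII2
import Pool.Agent.OSR2.Many

/-!
The requirement in all cases, version 2. Adapt the proof in `Pool/Agent/OSR/Req.lean`.

PROOF. Let `Gs = (mux n s - a0) + |mux n s - T| / 10 + ((c-2+Zi) T - hs 1 p)`; each summand is
nonnegative (`mux_ge`, `x1_le` with `hb`). Put `Zb = K Z = 10^4 ζ^2`.
* `T = 0`; `T > 0`, `Gs ≥ 2 ζ T`; `T > 0`, `E n ≥ ζ T / 2` (`caseI2`): as in version 1.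
* Otherwise put `g' = Gs / T < 2 ζ`, `lam = 50 ζ + 25 √g' ≤ 50 ζ + 25 √(2 ζ)`; `crit2` gives
  `g' ≥ 0`, `g`, and `r := T - (c-1) hs1 p ≤ (c-1) g' T ≤ (13/8) g' T`. By `E_size` and
  `ζ + Z/2 ≤ 1.005 ζ`, `c * Esmall ≤ (132 ζ^2 + 66 ζ √g') T`. Apply `caseII2` with `Gg = Gs`:
  - If `g' ≥ 2 Zb`: `many` with its `K := 1` (`c * r ≤ 4.27 g' T ≤ 25 √g' T`, as
    `√g' ≤ 1`), `k = 1`. The hypothesis `hG`: `ρ ≤ 1` (`hρ3`), so
    `c ρ (K-1) (Z/2) T ≤ (21/16) Zb T = 13125 ζ^2 T`, `(K Z - Zi) T ≥ 5000 ζ^2 T`, and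
    `ζ^2 ≤ g'/20000`, `ζ √g' ≤ g'/141`: total `8125 ζ^2 + 132 ζ^2 + 66 ζ √g' ≤ 0.89 g'`.
  - If `g' < 2 Zb`: `many` with `K`: `c^K r ≤ (8/3)^K * (13/8) * 2 * 10^4 ζ^2 T`
    `= (8/3)^K (660 ζ) * (32500/660) ζ T ≤ 49.3 ζ T ≤ lam T` (`hKζ`); `k = K`. The hypothesis
    `hG`: `132 ζ^2 + 66 ζ √g' ≤ 132 ζ^2 + 1089 ζ^2 + g' ≤ 5000 ζ^2 + g'`.
-/

open Finset
open scoped Classical

namespace Pool.Agent.OSR.Run

variable {m K : ℕ} {c Zi Z ν ζ ρ : ℝ} (R : Run m c Z K ν ζ) {n : ℕ}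
  {σ : ℕ → Option (Fin m)} {T : ℝ}

private theorem rq_one {c r g' q T ζ : ℝ} (hc1 : 13 / 5 ≤ c) (hc2 : c ≤ 21 / 8) (hg0 : 0 ≤ g')
    (hq0 : 0 ≤ q) (hqq : q * q = g') (hq1 : q ≤ 1) (hT : 0 ≤ T) (hζ0 : 0 ≤ ζ)
    (hr : r ≤ (c - 1) * g' * T) : c ^ 1 * r ≤ (50 * ζ + 25 * q) * T := by
  have h0 : 0 ≤ g' * T := mul_nonneg hg0 hT
  have h1 : (c - 1) * g' * T ≤ 13 / 8 * (g' * T) := by
    rw [mul_assoc]
    exact mul_le_mul_of_nonneg_right (by linarith) h0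
  have h2 : c * r ≤ c * (13 / 8 * (g' * T)) := mul_le_mul_of_nonneg_left (hr.trans h1) (by linarith)
  have h3 : c * (13 / 8 * (g' * T)) ≤ 21 / 8 * (13 / 8 * (g' * T)) :=
    mul_le_mul_of_nonneg_right hc2 (by linarith)
  have h4 : g' ≤ q := by
    have := mul_le_mul_of_nonneg_left hq1 hq0
    linarith
  have h5 : g' * T ≤ q * T := mul_le_mul_of_nonneg_right h4 hT
  have h6 : 0 ≤ ζ * T := mul_nonneg hζ0 hT
  have h7 : 0 ≤ q * T := mul_nonneg hq0 hT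
  rw [pow_one]
  linarith

private theorem rq_many {c r g' q T ζ : ℝ} {K : ℕ} (hc1 : 13 / 5 ≤ c) (hc2 : c ≤ 21 / 8)
    (hg0 : 0 ≤ g') (hq0 : 0 ≤ q) (hT : 0 ≤ T) (hζ0 : 0 ≤ ζ)
    (hg1 : g' ≤ 2 * (10 ^ 4 * ζ ^ 2)) (hK : (8 / 3) ^ K * (660 * ζ) ≤ 1)
    (hr : r ≤ (c - 1) * g' * T) : c ^ K * r ≤ (50 * ζ + 25 * q) * T := by
  have h0 : 0 ≤ g' * T := mul_nonneg hg0 hT
  have h1 : (c - 1) * g' * T ≤ 13 / 8 * (g' * T) := by
    rw [mul_assoc]
    exact mul_le_mul_of_nonneg_right (by linarith) h0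
  have h2 : c ^ K * r ≤ c ^ K * (13 / 8 * (g' * T)) :=
    mul_le_mul_of_nonneg_left (hr.trans h1) (pow_nonneg (by linarith) K)
  have h3 : c ^ K * (13 / 8 * (g' * T)) ≤ (8 / 3) ^ K * (13 / 8 * (g' * T)) :=
    mul_le_mul_of_nonneg_right (pow_le_pow_left₀ (by linarith) (by linarith) K) (by linarith)
  have h4 : g' * T ≤ 2 * (10 ^ 4 * ζ ^ 2) * T := mul_le_mul_of_nonneg_right hg1 hT
  have h5 : ((8 : ℝ) / 3) ^ K * (13 / 8 * (g' * T)) ≤
      (8 / 3) ^ K * (13 / 8 * (2 * (10 ^ 4 * ζ ^ 2) * T)) :=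
    mul_le_mul_of_nonneg_left (by linarith) (pow_nonneg (by norm_num) K)
  have h6 := mul_le_mul_of_nonneg_right hK (mul_nonneg hζ0 hT)
  have h7 : ((8 : ℝ) / 3) ^ K * (13 / 8 * (2 * (10 ^ 4 * ζ ^ 2) * T)) =
      32500 / 660 * ((8 / 3) ^ K * (660 * ζ) * (ζ * T)) := by ring
  have h8 : 0 ≤ ζ * T := mul_nonneg hζ0 hT
  have h9 : 0 ≤ q * T := mul_nonneg hq0 hT
  rw [h7] at h5
  linarith

private theorem rq_key1 {g' q ζ : ℝ} (hq0 : 0 ≤ q) (hqq : q * q = g') (hζ0 : 0 ≤ ζ)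
    (hg1 : 2 * (10 ^ 4 * ζ ^ 2) ≤ g') :
    132 * ζ ^ 2 + 66 * ζ * q + 13125 * ζ ^ 2 ≤ 5000 * ζ ^ 2 + g' := by
  have h1 : 141 * ζ ≤ q := by
    by_contra hcon
    rw [not_le] at hcon
    have h2 : q * q < (141 * ζ) * (141 * ζ) := mul_self_lt_mul_self hq0 hcon
    nlinarith [sq_nonneg ζ]
  have h2 := mul_le_mul_of_nonneg_right h1 hq0
  rw [mul_assoc, hqq] at h2
  have h3 := sq_nonneg ζ
  have h4 : 66 * ζ * q = 66 * (ζ * q) := mul_assoc _ _ _
  rw [h4]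
  linarith

private theorem rq_key2 {g' q ζ : ℝ} (hqq : q * q = g') :
    132 * ζ ^ 2 + 66 * ζ * q ≤ 5000 * ζ ^ 2 + g' := by
  nlinarith [sq_nonneg (33 * ζ - q), sq_nonneg ζ]

private theorem rq_cr {c ρ Z T ζ : ℝ} {K : ℕ} (hc2 : c ≤ 21 / 8)
    (hρ0 : 0 < ρ) (hρ1 : ρ ≤ 1) (hZ : 0 < Z) (hT : 0 ≤ T) (hK : 1 ≤ K)
    (hKZ : K * Z = 10 ^ 4 * ζ ^ 2) :
    c * ρ * ((K : ℝ) - (1 : ℕ)) * (Z / 2) * T ≤ 13125 * ζ ^ 2 * T := by
  have hK1 : (1 : ℝ) ≤ K := by exact_mod_cast hK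
  apply mul_le_mul_of_nonneg_right _ hT
  have h1 : c * ρ ≤ 21 / 8 := by
    have := mul_le_mul hc2 hρ1 hρ0.le (by norm_num)
    linarith
  have h2 : ((K : ℝ) - (1 : ℕ)) * (Z / 2) ≤ 5000 * ζ ^ 2 := by
    push_cast
    linarith
  have h3 : 0 ≤ ((K : ℝ) - (1 : ℕ)) * (Z / 2) := by
    push_cast
    apply mul_nonneg <;> linarith
  have h4 := mul_le_mul h1 h2 h3 (by norm_num)
  linarith

theorem req2 (G : Good2 m K c Zi Z ν ζ ρ) (hT : 0 ≤ T)
    (h : ∀ i, sm n (fun j => σ j = some i) R.t ≤ T) {s : ℕ} (hs : s < n)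
    (hL : ∀ i, R.load s (R.ma s) ≤ R.load s i) :
    Zi * T + R.hs n σ 2 R.z ≤ c * R.rx n σ s R.z + (c - 1) * R.rs n σ 2 R.z +
      R.hs n σ 2 R.t / m / 10 + ((R.mux n s - R.load s (R.ma s)) + |R.mux n s - T| / 10 +
        ((c - 2 + Zi) * T - R.hs n σ 1 R.p)) := by
  have hm := G.hm
  have hc1 := G.hc1
  have hc2 := G.hc2
  have hb := G.hb
  have hZi0 := G.hZi0
  have hZi := G.hZi
  have hζ0 := G.hζ0
  have hζ := G.hζ
  have hKZ := G.hZ
  have hν1 := G.hν1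
  have hK := G.hK
  have hρ0 := G.hρ0
  have hc : 1 < c := by linarith
  have hm0 : 0 < m := by omega
  have hK1 : (1 : ℝ) ≤ K := by exact_mod_cast hK
  have hK0 : (0 : ℝ) < K := by linarith
  have hζζ : ζ ^ 2 ≤ ζ / 10 ^ 6 := by
    have := mul_le_mul_of_nonneg_left hζ hζ0.le
    rw [pow_two]
    linarith
  have hZpos : 0 < Z := G.Z_pos
  have hZle0 : Z ≤ 10 ^ 4 * ζ ^ 2 := G.Z_le
  have hZle : Z ≤ ζ / 100 := by linarith
  have hZi' : Zi ≤ 5000 * ζ ^ 2 := by linarith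
  obtain ⟨Gs, hGs⟩ : ∃ Gs, Gs = (R.mux n s - R.load s (R.ma s)) + |R.mux n s - T| / 10 +
      ((c - 2 + Zi) * T - R.hs n σ 1 R.p) := ⟨_, rfl⟩
  have hA1 := (R.mux_ge hm0 hs hL).1
  have hA2 := abs_nonneg (R.mux n s - T)
  have hA3 : R.hs n σ 1 R.p ≤ (c - 2 + Zi) * T := by
    have h1 := R.x1_le hc hT h
    have h2 : (c - 1) * R.hs n σ 1 R.p ≤ (c - 1) * ((c - 2 + Zi) * T) := by
      rw [← mul_assoc, hb, one_mul]
      exact h1
    exact le_of_mul_le_mul_left h2 (by linarith)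
  have hGs0 : 0 ≤ Gs := by
    rw [hGs]
    linarith
  rw [← hGs]
  have hn1 : 0 ≤ c * R.rx n σ s R.z := mul_nonneg (by linarith) (R.rx_z_nonneg s)
  have hn2 : 0 ≤ (c - 1) * R.rs n σ 2 R.z :=
    mul_nonneg (by linarith) (R.rs_z_nonneg (by decide))
  have hn3 : 0 ≤ R.hs n σ 2 R.t / m / 10 := by
    have := R.hs_t_nonneg (n := n) (σ := σ) 2
    positivity
  rcases hT.eq_or_lt with hT0 | hT0
  · -- `T = 0`
    have h1 : R.hs n σ 2 R.z = 0 := by
      unfold Run.hs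
      apply sm_eq_zero
      rintro j hj ⟨-, hσ⟩
      have h2 := hosted_le (fun j => (R.ht j).le) h hj hσ
      have h3 := R.ht j
      linarith
    rw [h1, ← hT0]
    linarith
  · by_cases hbig : 2 * ζ * T ≤ Gs
    · have h1 : R.hs n σ 2 R.z ≤ sm n (fun j => R.cl j = 2 ∧ R.t j ≤ T) R.z := by
        unfold Run.hs
        apply sm_le_of_imp
        · rintro j hj ⟨h2, hσ⟩
          exact ⟨h2, hosted_le (fun j => (R.ht j).le) h hj hσ⟩
        · rintro j hj ⟨h2, -⟩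
          refine (R.z_pos ?_).le
          rw [h2]
          decide
      have h2 := R.E_size hZpos hK0 (by linarith : 0 ≤ ν) hζ0.le n hT
      have h3 : (Zi + (ζ + Z / 2)) * T ≤ 2 * ζ * T :=
        mul_le_mul_of_nonneg_right (by linarith) hT
      linarith
    · by_cases hE : ζ * T / 2 ≤ R.E n
      · have h1 := R.caseI2 G hT0 h hE
        linarith
      · have hg' : Gs = Gs / T * T := by
          rw [div_mul_cancel₀ _ hT0.ne']
        have hg2 : Gs / T < 2 * ζ := by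
          rw [div_lt_iff₀ hT0]
          exact not_le.1 hbig
        obtain ⟨hg0, ⟨g, hinj, hgs, hgc, hgt⟩, hr0⟩ :=
          R.crit2 G hT0 h hs hL (g' := Gs / T) (by rw [← hGs]; exact hg') hg2
        obtain ⟨g', hgdef⟩ : ∃ g', g' = Gs / T := ⟨_, rfl⟩
        rw [← hgdef] at hg' hg2 hg0 hgt hr0
        obtain ⟨q, hqdef⟩ : ∃ q, q = √g' := ⟨_, rfl⟩
        have hsq0 : 0 ≤ √g' := Real.sqrt_nonneg _
        have hsq : √g' * √g' = g' := Real.mul_self_sqrt hg0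
        have hl0 : 0 ≤ 50 * ζ + 25 * √g' := by linarith
        have hl0' : 0 < 50 * ζ + 25 * √g' := by linarith
        have hl1 : 50 * ζ + 25 * √g' ≤ 50 * ζ + 25 * √(2 * ζ) := by
          have := Real.sqrt_le_sqrt hg2.le
          linarith
        have hsq2 : √(2 * ζ) ≤ 15 / 10000 := by
          rw [Real.sqrt_le_left (by norm_num)]
          norm_num at hζ ⊢
          linarith
        have hl2 : 50 * ζ + 25 * √g' < 1 := by
          norm_num at hζ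
          linarith
        have hq1 : √g' ≤ 1 := by
          norm_num at hζ
          linarith
        have hρ1 : ρ ≤ 1 := by
          refine G.hρ3.trans ?_
          have h0 : 0 ≤ √(2 * ζ) := Real.sqrt_nonneg _
          norm_num at hζ
          apply Real.rpow_le_one (by linarith) (by linarith) (by linarith)
        have hEs := R.E_size hZpos hK0 (by linarith : 0 ≤ ν) hζ0.le n
          (mul_nonneg hl0 hT)
        have hEsm : c * sm n (fun j => R.cl j = 2 ∧ R.t j ≤ (50 * ζ + 25 * √g') * T) R.z ≤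
            (132 * ζ ^ 2 + 66 * ζ * √g') * T := by
          have h1 : c * (ζ + Z / 2) ≤ 264 / 100 * ζ := by
            have h2 : ζ + Z / 2 ≤ 1005 / 1000 * ζ := by linarith
            have h3 : c * (ζ + Z / 2) ≤ 21 / 8 * (1005 / 1000 * ζ) :=
              mul_le_mul hc2 h2 (by linarith) (by norm_num)
            linarith
          have h2 : c * sm n (fun j => R.cl j = 2 ∧ R.t j ≤ (50 * ζ + 25 * √g') * T) R.z ≤
              c * ((ζ + Z / 2) * ((50 * ζ + 25 * √g') * T)) :=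
            mul_le_mul_of_nonneg_left hEs (by linarith)
          have h3 : c * (ζ + Z / 2) * ((50 * ζ + 25 * √g') * T) ≤
              264 / 100 * ζ * ((50 * ζ + 25 * √g') * T) :=
            mul_le_mul_of_nonneg_right h1 (mul_nonneg hl0 hT)
          have h4 : 264 / 100 * ζ * ((50 * ζ + 25 * √g') * T) =
              (132 * ζ ^ 2 + 66 * ζ * √g') * T := by ring
          linarith
        rcases le_or_gt (2 * (10 ^ 4 * ζ ^ 2)) g' with hcase | hcase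
        · -- one long job
          obtain ⟨S, hSc, hS⟩ := R.many (n := n) (σ := σ) hc hT0 h hl0' hl2 1
            (rq_one hc1 hc2 hg0 hsq0 hsq hq1 hT hζ0.le hr0)
          have hkT := mul_le_mul_of_nonneg_right (rq_key1 hsq0 hsq hζ0.le hcase) hT
          have hcr := rq_cr hc2 hρ0 hρ1 hZpos hT hK hKZ
          have hZT : (K * Z - Zi) * T ≥ 5000 * ζ ^ 2 * T :=
            mul_le_mul_of_nonneg_right (by linarith) hT
          have h1 := R.caseII2 G hT0 h (not_le.1 hE) hl0 hl1 s g hinj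
            (fun i => (hgs i).trans hs) (fun i => (hgs i).ne) hgc hgt S hS (k := 1) hSc hK
            (Gg := Gs) (by
              rw [hg']
              linarith)
          linarith
        · -- `K` long jobs
          obtain ⟨S, hSc, hS⟩ := R.many (n := n) (σ := σ) hc hT0 h hl0' hl2 K
            (rq_many hc1 hc2 hg0 hsq0 hT hζ0.le hcase.le G.hKζ hr0)
          have hkT := mul_le_mul_of_nonneg_right (rq_key2 (ζ := ζ) hsq) hT
          have hZT : (K * Z - Zi) * T ≥ 5000 * ζ ^ 2 * T :=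
            mul_le_mul_of_nonneg_right (by linarith) hT
          have h1 := R.caseII2 G hT0 h (not_le.1 hE) hl0 hl1 s g hinj
            (fun i => (hgs i).trans hs) (fun i => (hgs i).ne) hgc hgt S hS (k := K) hSc le_rfl
            (Gg := Gs) (by
              rw [hg', sub_self]
              linarith)
          linarith

end Pool.Agent.OSR.Run
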